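import Pool.Agent.H698.SF.Defs

/-! # The pivot labelling on graphs without large induced stars -/

set_option autoImplicit false
set_option linter.unusedSectionVars false

open scoped Classical
open Finset

namespace Pool.Agent.H698.SF

section order

variable {X : Type} [Fintype X]

theorem card_ord : Fintype.card (Ord X) = (Fintype.card X).factorial := by
  rw [Fintype.card_equiv (Fintype.equivFin X)]

theorem card_first_eq (S : Finset X) {x y : X} (hx : x ∈ S) (hy : y ∈ S) :
    (univ.filter fun σ : Ord X => ∀ z ∈ S, σ x ≤ σ z).card =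
      (univ.filter fun σ : Ord X => ∀ z ∈ S, σ y ≤ σ z).card := by
  have key : ∀ a b : X, a ∈ S → b ∈ S →
      (univ.filter fun σ : Ord X => ∀ z ∈ S, σ a ≤ σ z).card ≤
      (univ.filter fun σ : Ord X => ∀ z ∈ S, σ b ≤ σ z).card := by
    intro a b ha hb
    refine card_le_card_of_injOn (fun σ => (Equiv.swap a b).trans σ) ?_ ?_
    · intro σ hσ
      simp only [coe_filter, mem_univ, true_and, Set.mem_ofPred_eq] at hσ ⊢
      intro z hz
      simp only [Equiv.trans_apply, Equiv.swap_apply_right]
      apply hσ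
      rcases eq_or_ne z a with rfl | h1
      · rw [Equiv.swap_apply_left]; exact hb
      · rcases eq_or_ne z b with rfl | h2
        · rw [Equiv.swap_apply_right]; exact ha
        · rw [Equiv.swap_apply_of_ne_of_ne h1 h2]; exact hz
    · intro σ _ τ _ h
      refine Equiv.ext fun z => ?_
      have := congrArg (fun e : Ord X => e (Equiv.swap a b z)) h
      simpa using this
  exact le_antisymm (key x y hx hy) (key y x hy hx)

theorem card_first (S : Finset X) {x : X} (hx : x ∈ S) :
    (univ.filter fun σ : Ord X => ∀ z ∈ S, σ x ≤ σ z).card * S.card =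
      (Fintype.card X).factorial := by
  have h1 : ∑ y ∈ S, (univ.filter fun σ : Ord X => ∀ z ∈ S, σ y ≤ σ z).card =
      (univ.filter fun σ : Ord X => ∀ z ∈ S, σ x ≤ σ z).card * S.card := by
    rw [sum_congr rfl fun y hy => card_first_eq S hy hx, sum_const, smul_eq_mul, mul_comm]
  rw [← h1, ← card_ord (X := X)]
  simp_rw [card_filter]
  rw [sum_comm]
  have h2 : ∀ σ : Ord X, (∑ y ∈ S, if ∀ z ∈ S, σ y ≤ σ z then 1 else 0) = 1 := by
    intro σ
    rw [← card_filter, card_eq_one]
    obtain ⟨y, hy, hy2⟩ := exists_min_image S σ ⟨x, hx⟩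
    refine ⟨y, ?_⟩
    ext w
    simp only [mem_filter, mem_singleton]
    constructor
    · rintro ⟨h3, h4⟩
      exact σ.injective (le_antisymm (h4 y hy) (hy2 w h3))
    · rintro rfl
      exact ⟨hy, hy2⟩
  rw [sum_congr rfl fun σ _ => h2 σ]
  simp

theorem card_first_real (S : Finset X) {x : X} (hx : x ∈ S) :
    ((univ.filter fun σ : Ord X => ∀ z ∈ S, σ x ≤ σ z).card : ℝ) =
      (Fintype.card X).factorial / S.card := by
  have h := card_first S hx
  have h0 : (S.card : ℝ) ≠ 0 := by
    have : 0 < S.card := card_pos.2 ⟨x, hx⟩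
    positivity
  rw [eq_div_iff h0]
  exact_mod_cast h

end order

section graph

variable {X : Type} [Fintype X] (G : SimpleGraph X)

/-- the neighbours -/
noncomputable def nbr (u : X) : Finset X := univ.filter fun w => G.Adj u w

theorem mem_nbr {u w : X} : w ∈ nbr G u ↔ G.Adj u w := by simp [nbr]

theorem mem_nb {u w : X} : w ∈ nb G u ↔ w = u ∨ G.Adj u w := by simp [nb]

theorem card_nb (u : X) : (nb G u).card = (nbr G u).card + 1 := by
  have : nb G u = insert u (nbr G u) := by
    ext w; simp [mem_nb, mem_nbr]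
  rw [this, card_insert_of_notMem]
  simp [mem_nbr]

/-- Caro and Wei -/
theorem caro_wei {r : ℕ} (h : StarFree r G) (u : X) :
    ∑ w ∈ nbr G u, (1 : ℝ) / ((nbr G u ∩ nbr G w).card + 1) ≤ r := by
  have h1 : ∀ σ : Ord X, ((nbr G u).filter fun w =>
      ∀ z ∈ insert w (nbr G u ∩ nbr G w), σ w ≤ σ z).card ≤ r := by
    intro σ
    apply h u
    · intro w hw
      exact (mem_nbr G).1 (mem_filter.1 hw).1
    · intro w hw w' hw' ha
      rw [mem_filter] at hw hw'
      have a1 := hw.2 w' (by simp [hw'.1, mem_nbr, ha])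
      have a2 := hw'.2 w (by simp [hw.1, mem_nbr, ha.symm])
      exact G.loopless.irrefl _ (σ.injective (le_antisymm a1 a2) ▸ ha)
  have h2 : ∑ w ∈ nbr G u, ((univ.filter fun σ : Ord X =>
      ∀ z ∈ insert w (nbr G u ∩ nbr G w), σ w ≤ σ z).card : ℝ) ≤
      r * (Fintype.card X).factorial := by
    have h3 : ∑ w ∈ nbr G u, (univ.filter fun σ : Ord X =>
        ∀ z ∈ insert w (nbr G u ∩ nbr G w), σ w ≤ σ z).card ≤
        r * (Fintype.card X).factorial := by
      simp_rw [card_filter]
      rw [sum_comm]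
      calc _ = ∑ σ : Ord X, ((nbr G u).filter fun w =>
            ∀ z ∈ insert w (nbr G u ∩ nbr G w), σ w ≤ σ z).card := by
            refine sum_congr rfl fun σ _ => ?_
            rw [card_filter]
        _ ≤ ∑ _σ : Ord X, r := sum_le_sum fun σ _ => h1 σ
        _ = _ := by rw [sum_const, card_univ, card_ord, smul_eq_mul, mul_comm]
    exact_mod_cast h3
  have h4 : ∀ w ∈ nbr G u, ((univ.filter fun σ : Ord X =>
      ∀ z ∈ insert w (nbr G u ∩ nbr G w), σ w ≤ σ z).card : ℝ) =
      (Fintype.card X).factorial * (1 / ((nbr G u ∩ nbr G w).card + 1)) := by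
    intro w _
    rw [card_first_real _ (mem_insert_self _ _), card_insert_of_notMem]
    · push_cast; ring
    · simp [mem_nbr]
  rw [sum_congr rfl h4, ← mul_sum, mul_comm (r : ℝ)] at h2
  have h5 : (0 : ℝ) < (Fintype.card X).factorial := by positivity
  exact le_of_mul_le_mul_left h2 h5

/-- the common closed neighbours of adjacent vertices -/
theorem card_inter {u w : X} (h : G.Adj u w) :
    (nb G u ∩ nb G w).card = (nbr G u ∩ nbr G w).card + 2 := by
  have : nb G u ∩ nb G w = insert u (insert w (nbr G u ∩ nbr G w)) := by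
    ext z
    simp only [mem_inter, mem_nb, mem_insert, mem_nbr]
    constructor
    · rintro ⟨a | a, b | b⟩ <;> tauto
    · rintro (rfl | rfl | ⟨a, b⟩)
      · exact ⟨Or.inl rfl, Or.inr h.symm⟩
      · exact ⟨Or.inr h, Or.inl rfl⟩
      · exact ⟨Or.inr a, Or.inr b⟩
  rw [this, card_insert_of_notMem, card_insert_of_notMem]
  · simp [mem_nbr]
  · simp [mem_nbr, h.ne]

/-- the sum of `|N[u]| / |N[u] ∩ N[w]|` over the neighbours `w` of `u` -/
theorem ratio_sum {r : ℕ} (h : StarFree r G) (u : X) :
    ∑ w ∈ nbr G u, ((nb G u).card : ℝ) / (nb G u ∩ nb G w).card ≤ r * (nbr G u).card := by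
  set d : ℝ := ((nbr G u).card : ℝ) with hd
  have h1 : ∀ w ∈ nbr G u, ((nb G u).card : ℝ) / (nb G u ∩ nb G w).card ≤
      d * (1 / ((nbr G u ∩ nbr G w).card + 1)) := by
    intro w hw
    have ha := (mem_nbr G).1 hw
    rw [card_inter G ha, card_nb]
    push_cast
    rw [← hd]
    have hc : ((nbr G u ∩ nbr G w).card : ℝ) + 1 ≤ d := by
      have : (nbr G u ∩ nbr G w).card < (nbr G u).card := by
        apply card_lt_card
        refine ⟨inter_subset_left, fun hs => ?_⟩
        have := (mem_inter.1 (hs hw)).2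
        simp [mem_nbr] at this
      rw [hd]; exact_mod_cast this
    set c : ℝ := ((nbr G u ∩ nbr G w).card : ℝ)
    have hc0 : 0 ≤ c := by positivity
    rw [mul_one_div, div_le_div_iff₀ (by positivity) (by positivity)]
    nlinarith
  refine (sum_le_sum h1).trans ?_
  rw [← mul_sum, mul_comm (r : ℝ)]
  exact mul_le_mul_of_nonneg_left (caro_wei G h u) (by positivity)

/-- the probability that two adjacent vertices have the same pivot -/
noncomputable def jac (z : X × X) : ℝ :=
  ((nb G z.1 ∩ nb G z.2).card : ℝ) / (nb G z.1 ∪ nb G z.2).card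

/-- the ordered pairs of adjacent vertices -/
noncomputable def prs : Finset (X × X) := univ.filter fun z : X × X => G.Adj z.1 z.2

theorem sum_prs (f : X → X → ℝ) : ∑ z ∈ prs G, f z.1 z.2 = ∑ u, ∑ w ∈ nbr G u, f u w := by
  rw [prs, sum_filter, ← univ_product_univ, sum_product]
  refine sum_congr rfl fun u _ => ?_
  rw [nbr, sum_filter]

theorem sum_prs_swap (f : X → X → ℝ) : ∑ z ∈ prs G, f z.2 z.1 = ∑ z ∈ prs G, f z.1 z.2 := by
  refine sum_nbij' (fun z => (z.2, z.1)) (fun z => (z.2, z.1)) ?_ ?_ ?_ ?_ ?_ <;>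
    simp [prs, SimpleGraph.adj_comm]

theorem card_prs : ((prs G).card : ℝ) = ∑ u, ((nbr G u).card : ℝ) := by
  have := sum_prs G fun _ _ => (1 : ℝ)
  simpa using this

theorem sum_jac {r : ℕ} (hr : 1 ≤ r) (h : StarFree r G) :
    ((prs G).card : ℝ) / (2 * r - 1) ≤ ∑ z ∈ prs G, jac G z := by
  have hr' : (1 : ℝ) ≤ r := by exact_mod_cast hr
  rcases (prs G).eq_empty_or_nonempty with he | hne
  · simp [he]
  have hD : (0 : ℝ) < (prs G).card := by
    have := card_pos.2 hne; exact_mod_cast this
  -- the reciprocal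
  set Y : X × X → ℝ := fun z =>
    ((nb G z.1).card : ℝ) / (nb G z.1 ∩ nb G z.2).card +
      ((nb G z.2).card : ℝ) / (nb G z.2 ∩ nb G z.1).card - 1 with hY
  have h1 : ∀ z ∈ prs G, jac G z = 1 / Y z ∧ 0 < Y z := by
    intro z hz
    have ha : G.Adj z.1 z.2 := by simpa [prs] using hz
    have hc : (0 : ℝ) < (nb G z.1 ∩ nb G z.2).card := by
      rw [card_inter G ha]; positivity
    have hu : ((nb G z.1 ∪ nb G z.2).card : ℝ) =
        (nb G z.1).card + (nb G z.2).card - (nb G z.1 ∩ nb G z.2).card := by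
      have := card_union_add_card_inter (nb G z.1) (nb G z.2)
      have h2 : ((nb G z.1 ∪ nb G z.2).card : ℝ) + (nb G z.1 ∩ nb G z.2).card =
        (nb G z.1).card + (nb G z.2).card := by exact_mod_cast this
      linarith
    have hup : (0 : ℝ) < (nb G z.1 ∪ nb G z.2).card := by
      have : 0 < (nb G z.1 ∪ nb G z.2).card :=
        card_pos.2 ⟨z.1, mem_union_left _ (self_mem_nb G _)⟩
      exact_mod_cast this
    have hYe : Y z = (nb G z.1 ∪ nb G z.2).card / (nb G z.1 ∩ nb G z.2).card := by
      simp only [hY]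
      rw [inter_comm (nb G z.2), hu]
      field_simp
    rw [hYe]
    refine ⟨?_, div_pos hup hc⟩
    rw [one_div_div]
    rfl
  have h2 : ∑ z ∈ prs G, Y z ≤ (2 * r - 1) * (prs G).card := by
    simp only [hY, sum_sub_distrib, sum_add_distrib]
    have e1 : ∑ z ∈ prs G, ((nb G z.1).card : ℝ) / (nb G z.1 ∩ nb G z.2).card ≤
        r * (prs G).card := by
      rw [sum_prs G fun u w => ((nb G u).card : ℝ) / (nb G u ∩ nb G w).card, card_prs, mul_sum]
      exact sum_le_sum fun u _ => ratio_sum G h u
    have e2 : ∑ z ∈ prs G, ((nb G z.2).card : ℝ) / (nb G z.2 ∩ nb G z.1).card =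
        ∑ z ∈ prs G, ((nb G z.1).card : ℝ) / (nb G z.1 ∩ nb G z.2).card :=
      sum_prs_swap G fun u w => ((nb G u).card : ℝ) / (nb G u ∩ nb G w).card
    rw [e2]
    simp only [sum_const, nsmul_eq_mul, mul_one]
    linarith
  rw [sum_congr rfl fun z hz => (h1 z hz).1]
  -- Cauchy and Schwarz
  have h3 : ((prs G).card : ℝ) ^ 2 ≤ (∑ z ∈ prs G, 1 / Y z) * ∑ z ∈ prs G, Y z := by
    have := sum_mul_sq_le_sq_mul_sq (prs G) (fun z => Real.sqrt (1 / Y z))
      (fun z => Real.sqrt (Y z))
    have e1 : ∑ z ∈ prs G, Real.sqrt (1 / Y z) * Real.sqrt (Y z) = (prs G).card := by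
      rw [sum_congr rfl (g := fun _ => (1 : ℝ))]
      · simp
      · intro z hz
        have := (h1 z hz).2
        rw [← Real.sqrt_mul (by positivity), one_div_mul_cancel this.ne', Real.sqrt_one]
    have e2 : ∑ z ∈ prs G, Real.sqrt (1 / Y z) ^ 2 = ∑ z ∈ prs G, 1 / Y z :=
      sum_congr rfl fun z hz => Real.sq_sqrt (by have := (h1 z hz).2; positivity)
    have e3 : ∑ z ∈ prs G, Real.sqrt (Y z) ^ 2 = ∑ z ∈ prs G, Y z :=
      sum_congr rfl fun z hz => Real.sq_sqrt (h1 z hz).2.le
    rwa [e1, e2, e3] at this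
  have h4 : 0 ≤ ∑ z ∈ prs G, 1 / Y z :=
    sum_nonneg fun z hz => by have := (h1 z hz).2; positivity
  rw [div_le_iff₀ (by linarith)]
  have h5 : ((prs G).card : ℝ) ^ 2 ≤ (∑ z ∈ prs G, 1 / Y z) * ((2 * r - 1) * (prs G).card) :=
    h3.trans (mul_le_mul_of_nonneg_left h2 h4)
  nlinarith

variable (σ : Ord X)

theorem pivot_mem (u : X) : pivot G σ u ∈ nb G u :=
  (exists_min_image (nb G u) σ ⟨u, self_mem_nb G u⟩).choose_spec.1

theorem pivot_le (u : X) : ∀ y ∈ nb G u, σ (pivot G σ u) ≤ σ y :=
  (exists_min_image (nb G u) σ ⟨u, self_mem_nb G u⟩).choose_spec.2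

theorem pivot_eq {u p : X} (hp : p ∈ nb G u) (h : ∀ y ∈ nb G u, σ p ≤ σ y) :
    pivot G σ u = p :=
  σ.injective (le_antisymm (pivot_le G σ u p hp) (h _ (pivot_mem G σ u)))

/-- the number of orders with the same pivot for two adjacent vertices -/
theorem same_pivot (z : X × X) :
    (Fintype.card X).factorial * jac G z ≤
      (univ.filter fun σ : Ord X => pivot G σ z.1 = pivot G σ z.2).card := by
  have h1 : ((nb G z.1 ∩ nb G z.2).biUnion fun p =>
      univ.filter fun σ : Ord X => ∀ y ∈ nb G z.1 ∪ nb G z.2, σ p ≤ σ y) ⊆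
      univ.filter fun σ : Ord X => pivot G σ z.1 = pivot G σ z.2 := by
    intro σ hσ
    simp only [mem_biUnion, mem_filter, mem_univ, true_and] at hσ ⊢
    obtain ⟨p, hp, h⟩ := hσ
    rw [mem_inter] at hp
    rw [pivot_eq G σ hp.1 fun y hy => h y (mem_union_left _ hy),
      pivot_eq G σ hp.2 fun y hy => h y (mem_union_right _ hy)]
  have h2 := card_le_card h1
  rw [card_biUnion] at h2
  · have h3 : ((∑ p ∈ nb G z.1 ∩ nb G z.2, (univ.filter fun σ : Ord X =>
        ∀ y ∈ nb G z.1 ∪ nb G z.2, σ p ≤ σ y).card : ℕ) : ℝ) =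
        (Fintype.card X).factorial * jac G z := by
      push_cast
      rw [sum_congr rfl fun p hp => card_first_real _
        (mem_union_left (nb G z.2) (mem_inter.1 hp).1), sum_const, nsmul_eq_mul, jac]
      ring
    rw [← h3]
    exact_mod_cast h2
  · intro p hp q hq hpq
    rw [Function.onFun, disjoint_left]
    intro σ h3 h4
    simp only [mem_filter, mem_univ, true_and] at h3 h4
    rw [mem_coe, mem_inter] at hp hq
    exact hpq (σ.injective (le_antisymm (h3 q (mem_union_left _ hq.1))
      (h4 p (mem_union_left _ hp.1))))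

/-- the number of orders with a given pivot -/
theorem card_pivot (u p : X) :
    ((univ.filter fun σ : Ord X => pivot G σ u = p).card : ℝ) ≤
      (Fintype.card X).factorial / ((nbr G u).card + 1) := by
  by_cases hp : p ∈ nb G u
  · have h1 : (univ.filter fun σ : Ord X => pivot G σ u = p).card ≤
        (univ.filter fun σ : Ord X => ∀ y ∈ nb G u, σ p ≤ σ y).card := by
      apply card_le_card
      intro σ hσ
      simp only [mem_filter, mem_univ, true_and] at hσ ⊢
      rw [← hσ]
      exact pivot_le G σ u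
    have h2 : ((univ.filter fun σ : Ord X => pivot G σ u = p).card : ℝ) ≤
        (univ.filter fun σ : Ord X => ∀ y ∈ nb G u, σ p ≤ σ y).card := by exact_mod_cast h1
    rw [card_first_real _ hp, card_nb] at h2
    push_cast at h2
    exact h2
  · have : (univ.filter fun σ : Ord X => pivot G σ u = p) = ∅ := by
      rw [filter_eq_empty_iff]
      intro σ _ h
      exact hp (h ▸ pivot_mem G σ u)
    rw [this]
    simp only [card_empty, Nat.cast_zero]
    positivity

end graph

section main

variable {X Q : Type} [Fintype X] [Fintype Q] [Nonempty Q] (g : Game X Q)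

/-- violated pairs -/
def Bad (l : X → Q) (x y : X) : Prop := g.G.Adj x y ∧ g.p x y (l x) ≠ l y

theorem bad_symm {l : X → Q} {x y : X} (h : Bad g l x y) : Bad g l y x := by
  refine ⟨h.1.symm, fun h2 => h.2 ?_⟩
  rw [g.symm x y h.1] at h2
  rw [← h2]
  simp

theorem pairs_eq : g.pairs = (prs g.G).card := rfl

theorem inside_best (σ : Ord X) (c : X) (a : Q) : inside g σ c a ≤ inside g σ c (best g σ c) :=
  (exists_max_image (univ : Finset Q) (inside g σ c) univ_nonempty).choose_spec.2 a (mem_univ a)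

theorem sat_pivot (σ : Ord X) :
    ∑ c, inside g σ c (best g σ c) ≤ g.sat (pivotLabelling g σ) := by
  simp only [inside, Game.sat]
  rw [← card_biUnion]
  · apply card_le_card
    intro z hz
    simp only [mem_biUnion, mem_filter, mem_univ, true_and] at hz ⊢
    obtain ⟨c, h1, h2, h3, h4⟩ := hz
    refine ⟨h1, ?_⟩
    simp only [pivotLabelling, h2, h3]
    exact h4
  · intro c _ d _ hcd
    rw [Function.onFun, disjoint_left]
    intro z h1 h2
    simp only [mem_filter, mem_univ, true_and] at h1 h2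
    exact hcd (h1.2.1.symm.trans h2.2.1)

theorem spread_eq {l : X → Q} {c u : X} (h : c = u ∨ g.G.Adj c u) (hb : ¬ Bad g l c u) :
    spread g c (l c) u = l u := by
  unfold spread
  split_ifs with h1
  · rw [h1]
  · have h2 : g.G.Adj c u := h.resolve_left fun h => h1 h.symm
    by_contra h3
    exact hb ⟨h2, h3⟩

theorem sat_pivot' (σ : Ord X) (l : X → Q) :
    ((univ.filter fun z : X × X => g.G.Adj z.1 z.2 ∧ pivot g.G σ z.1 = pivot g.G σ z.2 ∧
      ¬ Bad g l (pivot g.G σ z.1) z.1 ∧ ¬ Bad g l (pivot g.G σ z.2) z.2 ∧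
      ¬ Bad g l z.1 z.2).card) ≤ g.sat (pivotLabelling g σ) := by
  refine le_trans ?_ ((sum_le_sum fun c _ => inside_best g σ c (l c)).trans (sat_pivot g σ))
  simp only [inside]
  rw [← card_biUnion]
  · apply card_le_card
    intro z hz
    simp only [mem_biUnion, mem_filter, mem_univ, true_and] at hz ⊢
    obtain ⟨h1, h2, h3, h4, h5⟩ := hz
    refine ⟨pivot g.G σ z.1, h1, rfl, h2.symm, ?_⟩
    have m : ∀ u, pivot g.G σ u = u ∨ g.G.Adj (pivot g.G σ u) u := by
      intro u
      rcases (mem_nb g.G).1 (pivot_mem g.G σ u) with h | h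
      · exact Or.inl h
      · exact Or.inr h.symm
    rw [spread_eq g (m z.1) h3]
    have h6 := spread_eq g (m z.2) h4
    rw [← h2] at h6
    rw [h6]
    by_contra h7
    exact h5 ⟨h1, h7⟩
  · intro c _ d _ hcd
    rw [Function.onFun, disjoint_left]
    intro z h1 h2
    simp only [mem_filter, mem_univ, true_and] at h1 h2
    exact hcd (h1.2.1.symm.trans h2.2.1)

/-- the number of violated ordered pairs -/
noncomputable def nbad (l : X → Q) : ℕ := (univ.filter fun z : X × X => Bad g l z.1 z.2).card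

theorem nbad_eq (l : X → Q) : nbad g l + g.sat l = g.pairs := by
  unfold nbad Game.sat Game.pairs
  rw [← card_union_of_disjoint]
  · congr 1
    ext z
    simp only [mem_union, mem_filter, mem_univ, true_and]
    unfold Bad
    tauto
  · rw [disjoint_left]
    intro z h1 h2
    simp only [mem_filter, mem_univ, true_and] at h1 h2
    exact h1.2 h2.2

theorem loss (l : X → Q) :
    ∑ z ∈ prs g.G, ((univ.filter fun σ : Ord X => Bad g l (pivot g.G σ z.1) z.1).card : ℝ) ≤
      (Fintype.card X).factorial * nbad g l := by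
  rw [sum_prs g.G fun u _ => ((univ.filter fun σ : Ord X =>
    Bad g l (pivot g.G σ u) u).card : ℝ)]
  have h1 : (nbad g l : ℝ) = ∑ u, ((univ.filter fun c => Bad g l c u).card : ℝ) := by
    unfold nbad
    rw [card_filter, ← univ_product_univ, sum_product, sum_comm]
    push_cast
    refine sum_congr rfl fun u _ => ?_
    rw [card_filter]
    push_cast
    rfl
  rw [h1, mul_sum]
  refine sum_le_sum fun u _ => ?_
  rw [sum_const, nsmul_eq_mul]
  have h2 : ((univ.filter fun σ : Ord X => Bad g l (pivot g.G σ u) u).card : ℝ) ≤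
      ∑ c ∈ univ.filter (fun c => Bad g l c u),
        ((univ.filter fun σ : Ord X => pivot g.G σ u = c).card : ℝ) := by
    have : (univ.filter fun σ : Ord X => Bad g l (pivot g.G σ u) u).card ≤
        ∑ c ∈ univ.filter (fun c => Bad g l c u),
          (univ.filter fun σ : Ord X => pivot g.G σ u = c).card := by
      refine le_trans (card_le_card ?_) card_biUnion_le
      intro σ hσ
      simp only [mem_biUnion, mem_filter, mem_univ, true_and] at hσ ⊢
      exact ⟨_, hσ, rfl⟩
    exact_mod_cast this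
  have h3 : ((univ.filter fun σ : Ord X => Bad g l (pivot g.G σ u) u).card : ℝ) ≤
      ((univ.filter fun c => Bad g l c u).card : ℝ) *
        ((Fintype.card X).factorial / ((nbr g.G u).card + 1)) := by
    refine h2.trans ((sum_le_sum fun c _ => card_pivot g.G u c).trans ?_)
    rw [sum_const, nsmul_eq_mul]
  have hd : (0 : ℝ) ≤ (nbr g.G u).card := by positivity
  calc ((nbr g.G u).card : ℝ) *
        ((univ.filter fun σ : Ord X => Bad g l (pivot g.G σ u) u).card : ℝ)
      ≤ (nbr g.G u).card * (((univ.filter fun c => Bad g l c u).card : ℝ) *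
        ((Fintype.card X).factorial / ((nbr g.G u).card + 1))) :=
        mul_le_mul_of_nonneg_left h3 hd
    _ = (((nbr g.G u).card : ℝ) / ((nbr g.G u).card + 1)) *
        ((Fintype.card X).factorial * (univ.filter fun c => Bad g l c u).card) := by
        field_simp
    _ ≤ 1 * ((Fintype.card X).factorial * (univ.filter fun c => Bad g l c u).card) := by
        apply mul_le_mul_of_nonneg_right _ (by positivity)
        rw [div_le_one (by positivity)]
        linarith
    _ = _ := one_mul _

theorem loss' (l : X → Q) :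
    ∑ z ∈ prs g.G, ((univ.filter fun σ : Ord X => Bad g l (pivot g.G σ z.2) z.2).card : ℝ) ≤
      (Fintype.card X).factorial * nbad g l := by
  rw [sum_prs_swap g.G fun u _ => ((univ.filter fun σ : Ord X =>
    Bad g l (pivot g.G σ u) u).card : ℝ)]
  exact loss g l

theorem ind_le (A B C D : Prop) :
    ((if A then (1 : ℝ) else 0) - (if B then (1 : ℝ) else 0) - (if C then (1 : ℝ) else 0) -
      (if D then (1 : ℝ) else 0)) ≤ if A ∧ ¬ B ∧ ¬ C ∧ ¬ D then 1 else 0 := by
  by_cases a1 : A <;> by_cases a2 : B <;> by_cases a3 : C <;> by_cases a4 : D <;>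
    simp [a1, a2, a3, a4] <;> norm_num

/-- The average quality of the pivot labelling. -/
theorem average {r : ℕ} (hr : 1 ≤ r) (h : StarFree r g.G) (l : X → Q) :
    (g.pairs : ℝ) / (2 * r - 1) - 3 * ((g.pairs : ℝ) - g.sat l) ≤
      (∑ σ : Ord X, (g.sat (pivotLabelling g σ) : ℝ)) / Fintype.card (Ord X) := by
  rw [card_ord]
  have hf : (0 : ℝ) < (Fintype.card X).factorial := by positivity
  rw [le_div_iff₀ hf]
  have hb : (g.pairs : ℝ) - g.sat l = nbad g l := by
    have := nbad_eq g l
    have h2 : (nbad g l : ℝ) + g.sat l = g.pairs := by exact_mod_cast this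
    linarith
  rw [hb, pairs_eq]
  -- for one order
  have h1 : ∀ σ : Ord X,
      (∑ z ∈ prs g.G, ((if pivot g.G σ z.1 = pivot g.G σ z.2 then (1 : ℝ) else 0) -
        (if Bad g l (pivot g.G σ z.1) z.1 then (1 : ℝ) else 0) -
        (if Bad g l (pivot g.G σ z.2) z.2 then (1 : ℝ) else 0) -
        (if Bad g l z.1 z.2 then (1 : ℝ) else 0))) ≤ g.sat (pivotLabelling g σ) := by
    intro σ
    have h2 : (((univ.filter fun z : X × X => g.G.Adj z.1 z.2 ∧
        pivot g.G σ z.1 = pivot g.G σ z.2 ∧
        ¬ Bad g l (pivot g.G σ z.1) z.1 ∧ ¬ Bad g l (pivot g.G σ z.2) z.2 ∧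
        ¬ Bad g l z.1 z.2).card : ℕ) : ℝ) ≤ g.sat (pivotLabelling g σ) := by
      exact_mod_cast sat_pivot' g σ l
    refine le_trans ?_ h2
    have e : (univ.filter fun z : X × X => g.G.Adj z.1 z.2 ∧
        pivot g.G σ z.1 = pivot g.G σ z.2 ∧
        ¬ Bad g l (pivot g.G σ z.1) z.1 ∧ ¬ Bad g l (pivot g.G σ z.2) z.2 ∧
        ¬ Bad g l z.1 z.2) = (prs g.G).filter fun z => pivot g.G σ z.1 = pivot g.G σ z.2 ∧
        ¬ Bad g l (pivot g.G σ z.1) z.1 ∧ ¬ Bad g l (pivot g.G σ z.2) z.2 ∧
        ¬ Bad g l z.1 z.2 := by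
      ext z
      simp [prs]
    rw [e, card_filter]
    push_cast
    exact sum_le_sum fun z _ => ind_le _ _ _ _
  refine le_trans ?_ (sum_le_sum fun σ _ => h1 σ)
  simp only [sum_sub_distrib]
  have t1 : (Fintype.card X).factorial * (((prs g.G).card : ℝ) / (2 * r - 1)) ≤
      ∑ σ : Ord X, ∑ z ∈ prs g.G,
        (if pivot g.G σ z.1 = pivot g.G σ z.2 then (1 : ℝ) else 0) := by
    rw [sum_comm]
    refine (mul_le_mul_of_nonneg_left (sum_jac g.G hr h) hf.le).trans ?_
    rw [mul_sum]
    refine sum_le_sum fun z _ => (same_pivot g.G z).trans (le_of_eq ?_)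
    rw [card_filter]
    push_cast
    rfl
  have t2 : ∑ σ : Ord X, ∑ z ∈ prs g.G,
      (if Bad g l (pivot g.G σ z.1) z.1 then (1 : ℝ) else 0) ≤
      (Fintype.card X).factorial * nbad g l := by
    rw [sum_comm]
    refine le_trans (le_of_eq ?_) (loss g l)
    refine sum_congr rfl fun z _ => ?_
    rw [card_filter]
    push_cast
    rfl
  have t3 : ∑ σ : Ord X, ∑ z ∈ prs g.G,
      (if Bad g l (pivot g.G σ z.2) z.2 then (1 : ℝ) else 0) ≤
      (Fintype.card X).factorial * nbad g l := by
    rw [sum_comm]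
    refine le_trans (le_of_eq ?_) (loss' g l)
    refine sum_congr rfl fun z _ => ?_
    rw [card_filter]
    push_cast
    rfl
  have t4 : ∑ _σ : Ord X, ∑ z ∈ prs g.G, (if Bad g l z.1 z.2 then (1 : ℝ) else 0) ≤
      (Fintype.card X).factorial * nbad g l := by
    rw [sum_const, card_univ, card_ord, nsmul_eq_mul]
    apply mul_le_mul_of_nonneg_left _ hf.le
    unfold nbad
    rw [card_filter]
    push_cast
    exact sum_le_sum_of_subset_of_nonneg (subset_univ _) fun z _ _ => by split_ifs <;> norm_num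
  linarith

end main

end Pool.Agent.H698.SF
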