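import Pool.Agent.H698.SF.Defs

/-! # Counting the vertices of the new game -/

set_option autoImplicit false
set_option linter.unusedSectionVars false

open scoped Classical
open Finset

namespace Pool.Agent.H698.SF

section pi

variable {W : Type} [Fintype W] {m : ℕ}

theorem sum_pi (F : Fin (m + 2) → W → ℝ) :
    ∑ f : Fin (m + 2) → W, ∏ i, F i (f i) = ∏ i, ∑ ω, F i ω := by
  rw [prod_univ_sum, Fintype.piFinset_univ]

theorem prod_one (i : Fin (m + 2)) (A B : ℝ) :
    ∏ j : Fin (m + 2), (if j = i then A else B) = A * B ^ (m + 1) := by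
  rw [← mul_prod_erase univ _ (mem_univ i), if_pos rfl]
  congr 1
  rw [prod_congr rfl (g := fun _ => B), prod_const, card_erase_of_mem (mem_univ i), card_univ,
    Fintype.card_fin]
  · congr 1
  · intro j hj
    rw [if_neg (ne_of_mem_erase hj)]

theorem prod_two {i j : Fin (m + 2)} (hij : i ≠ j) (A B C : ℝ) :
    ∏ k : Fin (m + 2), (if k = i then A else if k = j then B else C) = A * B * C ^ m := by
  rw [← mul_prod_erase univ _ (mem_univ i), if_pos rfl,
    ← mul_prod_erase (univ.erase i) _ (mem_erase.2 ⟨hij.symm, mem_univ j⟩), if_neg hij.symm,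
    if_pos rfl, mul_assoc]
  congr 2
  rw [prod_congr rfl (g := fun _ => C), prod_const, card_erase_of_mem
    (mem_erase.2 ⟨hij.symm, mem_univ j⟩), card_erase_of_mem (mem_univ i), card_univ,
    Fintype.card_fin]
  · congr 1
  · intro k hk
    have h1 := ne_of_mem_erase hk
    have h2 := ne_of_mem_erase (mem_of_mem_erase hk)
    rw [if_neg h2, if_neg h1]

theorem sum_pi_one (i : Fin (m + 2)) (φ : W → ℝ) :
    ∑ f : Fin (m + 2) → W, φ (f i) = (∑ ω, φ ω) * (Fintype.card W : ℝ) ^ (m + 1) := by
  have h := sum_pi (m := m) fun j ω => if j = i then φ ω else 1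
  have e1 : ∀ f : Fin (m + 2) → W, (∏ j, if j = i then φ (f j) else 1) = φ (f i) := by
    intro f
    rw [prod_ite_eq' univ i (fun j => φ (f j))]
    simp
  have e2 : ∀ j : Fin (m + 2), (∑ ω, if j = i then φ ω else 1) =
      if j = i then ∑ ω, φ ω else (Fintype.card W : ℝ) := by
    intro j
    split_ifs with hj
    · rfl
    · simp
  rw [sum_congr rfl fun f _ => e1 f, prod_congr rfl fun j _ => e2 j, prod_one] at h
  exact h

theorem sum_pi_two {i j : Fin (m + 2)} (hij : i ≠ j) (φ ψ : W → ℝ) :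
    ∑ f : Fin (m + 2) → W, φ (f i) * ψ (f j) =
      (∑ ω, φ ω) * (∑ ω, ψ ω) * (Fintype.card W : ℝ) ^ m := by
  have h := sum_pi (m := m) fun k ω => if k = i then φ ω else if k = j then ψ ω else 1
  have e1 : ∀ f : Fin (m + 2) → W,
      (∏ k, if k = i then φ (f k) else if k = j then ψ (f k) else 1) = φ (f i) * ψ (f j) := by
    intro f
    have : ∀ k, (if k = i then φ (f k) else if k = j then ψ (f k) else 1) =
        if k = i then φ (f i) else if k = j then ψ (f j) else 1 := by
      intro k
      split_ifs with h1 h2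
      · rw [h1]
      · rw [h2]
      · rfl
    rw [prod_congr rfl fun k _ => this k, prod_two hij]
    simp
  have e2 : ∀ k : Fin (m + 2), (∑ ω, if k = i then φ ω else if k = j then ψ ω else 1) =
      if k = i then ∑ ω, φ ω else if k = j then ∑ ω, ψ ω else (Fintype.card W : ℝ) := by
    intro k
    split_ifs <;> simp
  rw [sum_congr rfl fun f _ => e1 f, prod_congr rfl fun j _ => e2 j, prod_two hij] at h
  exact h

end pi

section count

variable {U V E Q : Type} [Fintype U] [Fintype V] [Fintype E] (g : BGame U V E Q)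
  {a b : ℕ} (hg : g.Regular a b) {m K : ℕ}

/-- the indicator of a proposition -/
noncomputable abbrev ind (P : Prop) : ℝ := if P then 1 else 0

theorem ind_nonneg (P : Prop) : 0 ≤ ind P := by unfold ind; split_ifs <;> norm_num

theorem card_eq_ind {α : Type} [Fintype α] (P : α → Prop) [DecidablePred P] :
    ((univ.filter P).card : ℝ) = ∑ x, ind (P x) := by
  rw [card_filter]
  push_cast
  refine sum_congr rfl fun x _ => ?_
  unfold ind
  by_cases h : P x <;> simp [h]

theorem sum_ind_eq {α : Type} [Fintype α] (a : α) : ∑ x, ind (x = a) = 1 := by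
  rw [sum_eq_single a]
  · simp [ind]
  · intro x _ h; simp [ind, h]
  · intro h; exact absurd (mem_univ a) h

theorem ind_mem {α : Type} (S : Finset α) (a : α) : ind (a ∈ S) = ∑ c ∈ S, ind (a = c) := by
  by_cases h : a ∈ S
  · rw [sum_eq_single a]
    · simp [ind, h]
    · intro x _ h2; simp [ind, h2.symm]
    · intro h2; exact absurd h h2
  · rw [sum_eq_zero]
    · simp [ind, h]
    · intro x hx
      have : a ≠ x := fun h2 => h (h2 ▸ hx)
      simp [ind, this]

theorem prod_ind {α : Type} [Fintype α] (P : α → Prop) : ∏ x, ind (P x) = ind (∀ x, P x) := by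
  by_cases h : ∀ x, P x
  · rw [prod_eq_one]
    · simp [ind, h]
    · intro x _; simp [ind, h x]
  · have h' := h
    push Not at h'
    obtain ⟨x, hx⟩ := h'
    rw [prod_eq_zero (mem_univ x)]
    · simp [ind, h]
    · simp [ind, hx]

theorem ind_and (P R : Prop) : ind (P ∧ R) = ind P * ind R := by
  unfold ind
  by_cases h1 : P <;> by_cases h2 : R <;> simp [h1, h2]

include hg

theorem card_fiber (v : V) : Fintype.card ({e : E // g.t e = v} × Fin K) = b * K := by
  rw [Fintype.card_prod, Fintype.card_fin, Fintype.card_subtype]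
  rw [hg.2 v]

theorem card_fiber_real (v : V) :
    (Fintype.card ({e : E // g.t e = v} × Fin K) : ℝ) = b * K := by
  rw [card_fiber g hg v]; push_cast; ring

theorem card_edges_left : (Fintype.card E : ℝ) = a * Fintype.card U := by
  have h : Fintype.card E = ∑ u : U, (univ.filter fun e => g.s e = u).card := by
    rw [← card_univ]
    exact card_eq_sum_card_fiberwise fun e _ => mem_coe.2 (mem_univ _)
  rw [sum_congr rfl fun u _ => hg.1 u] at h
  simp only [sum_const, card_univ, smul_eq_mul] at h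
  rw [h]; push_cast; ring

theorem card_edges_right : (Fintype.card E : ℝ) = b * Fintype.card V := by
  have h : Fintype.card E = ∑ u : V, (univ.filter fun e => g.t e = u).card := by
    rw [← card_univ]
    exact card_eq_sum_card_fiberwise fun e _ => mem_coe.2 (mem_univ _)
  rw [sum_congr rfl fun u _ => hg.2 u] at h
  simp only [sum_const, card_univ, smul_eq_mul] at h
  rw [h]; push_cast; ring

/-- the number of vertices of the new game -/
theorem card_vtx : (Fintype.card (Vtx g (m + 2) K) : ℝ) =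
    Fintype.card V * (b * K : ℝ) ^ (m + 2) := by
  rw [Fintype.card_sigma]
  push_cast
  simp_rw [Fintype.card_pi]
  push_cast
  rw [sum_congr rfl (g := fun _ => (b * K : ℝ) ^ (m + 2))]
  · simp
  · intro v _
    simp only [prod_const, card_univ, Fintype.card_fin]
    rw [card_fiber_real g hg v]

theorem sum_one (i : Fin (m + 2)) (φ : ∀ v : V, {e : E // g.t e = v} × Fin K → ℝ) :
    ∑ x : Vtx g (m + 2) K, φ x.1 (x.2 i) =
      (∑ v, ∑ ω, φ v ω) * (b * K : ℝ) ^ (m + 1) := by
  rw [Fintype.sum_sigma, sum_mul]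
  refine sum_congr rfl fun v _ => ?_
  rw [← card_fiber_real g hg v]
  exact sum_pi_one i (φ v)

theorem sum_two {i j : Fin (m + 2)} (hij : i ≠ j)
    (φ ψ : ∀ v : V, {e : E // g.t e = v} × Fin K → ℝ) :
    ∑ x : Vtx g (m + 2) K, φ x.1 (x.2 i) * ψ x.1 (x.2 j) =
      (∑ v, (∑ ω, φ v ω) * ∑ ω, ψ v ω) * (b * K : ℝ) ^ m := by
  rw [Fintype.sum_sigma, sum_mul]
  refine sum_congr rfl fun v _ => ?_
  rw [← card_fiber_real g hg v]
  exact sum_pi_two hij (φ v) (ψ v)

omit hg in
/-- sums over the edges -/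
theorem sum_fiber (F : E → Fin K → ℝ) :
    ∑ v, ∑ ω : {e : E // g.t e = v} × Fin K, F ω.1.1 ω.2 = ∑ e, ∑ k, F e k := by
  have h1 : ∀ v, ∑ ω : {e : E // g.t e = v} × Fin K, F ω.1.1 ω.2 =
      ∑ e ∈ univ.filter (fun e => g.t e = v), ∑ k, F e k := by
    intro v
    rw [Fintype.sum_prod_type]
    exact (sum_subtype _ (fun e => by simp) (fun e => ∑ k, F e k)).symm
  rw [sum_congr rfl fun v _ => h1 v]
  exact sum_fiberwise_of_maps_to (fun e _ => mem_univ _) _

omit hg in
theorem sum_pt (c : U × Fin K) :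
    ∑ v, ∑ ω : {e : E // g.t e = v} × Fin K, ind ((g.s ω.1.1, ω.2) = c) =
      ((univ.filter fun e => g.s e = c.1).card : ℝ) := by
  rw [sum_fiber g fun e k => ind ((g.s e, k) = c), card_eq_ind]
  refine sum_congr rfl fun e _ => ?_
  obtain ⟨u, κ⟩ := c
  have : ∀ k : Fin K, ind ((g.s e, k) = (u, κ)) = if k = κ then ind (g.s e = u) else 0 := by
    intro k
    unfold ind
    by_cases h1 : g.s e = u <;> by_cases h2 : k = κ <;> simp [h1, h2]
  rw [sum_congr rfl fun k _ => this k]
  simp

/-- the number of vertices with a given `i`-th point -/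
theorem card_slot (i : Fin (m + 2)) (c : U × Fin K) :
    ∑ x : Vtx g (m + 2) K, ind (pt g x i = c) = a * (b * K : ℝ) ^ (m + 1) := by
  have h := sum_one g hg (m := m) i fun v ω => ind ((g.s ω.1.1, ω.2) = c)
  rw [sum_pt g c, hg.1] at h
  exact h

/-- the number of vertices with two given points -/
theorem card_two_slots {i j : Fin (m + 2)} (hij : i ≠ j) (c c' : U × Fin K) :
    ∑ x : Vtx g (m + 2) K, ind (pt g x i = c) * ind (pt g x j = c') ≤
      a * b * (b * K : ℝ) ^ m := by
  have h := sum_two g hg (m := m) hij (fun v ω => ind ((g.s ω.1.1, ω.2) = c))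
    (fun v ω => ind ((g.s ω.1.1, ω.2) = c'))
  have h2 : ∀ v, ∑ ω : {e : E // g.t e = v} × Fin K, ind ((g.s ω.1.1, ω.2) = c') ≤ (b : ℝ) := by
    intro v
    have e1 : ∀ ω : {e : E // g.t e = v} × Fin K, ind ((g.s ω.1.1, ω.2) = c') ≤
        if ω.2 = c'.2 then 1 else 0 := by
      intro ω
      unfold ind
      by_cases h1 : (g.s ω.1.1, ω.2) = c'
      · rw [← h1]; simp
      · simp only [h1, if_false]; split_ifs <;> norm_num
    refine (sum_le_sum fun ω _ => e1 ω).trans ?_
    rw [Fintype.sum_prod_type]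
    simp only [sum_ite_eq', mem_univ, if_true, sum_const, card_univ, nsmul_eq_mul, mul_one]
    rw [Fintype.card_subtype, hg.2 v]
  have h3 : ∑ v, (∑ ω : {e : E // g.t e = v} × Fin K, ind ((g.s ω.1.1, ω.2) = c)) *
      ∑ ω : {e : E // g.t e = v} × Fin K, ind ((g.s ω.1.1, ω.2) = c') ≤ a * b := by
    refine (sum_le_sum fun v _ => mul_le_mul_of_nonneg_left (h2 v)
      (sum_nonneg fun ω _ => ind_nonneg _)).trans ?_
    rw [← sum_mul, sum_pt g c, hg.1]
  calc _ = _ := h
    _ ≤ _ := mul_le_mul_of_nonneg_right h3 (by positivity)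

/-- the number of vertices with equal numbers -/
theorem card_same {i j : Fin (m + 2)} (hij : i ≠ j) :
    (∑ x : Vtx g (m + 2) K, ind (pt g x i = pt g x j)) * K ≤
      Fintype.card (Vtx g (m + 2) K) := by
  have h1 : ∀ x : Vtx g (m + 2) K, ind (pt g x i = pt g x j) ≤
      ∑ κ : Fin K, ind ((x.2 i).2 = κ) * ind ((x.2 j).2 = κ) := by
    intro x
    have : ∑ κ : Fin K, ind ((x.2 i).2 = κ) * ind ((x.2 j).2 = κ) =
        ind ((x.2 j).2 = (x.2 i).2) := by
      simp only [ind, ite_mul, one_mul, zero_mul]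
      simp
    rw [this]
    by_cases h : pt g x i = pt g x j
    · have : (x.2 j).2 = (x.2 i).2 := (congrArg Prod.snd h).symm
      simp [ind, h, this]
    · simp only [ind, h, if_false]; split_ifs <;> norm_num
  have h2 : ∑ x : Vtx g (m + 2) K, ind (pt g x i = pt g x j) ≤
      Fintype.card V * (K * (b * b * (b * K : ℝ) ^ m)) := by
    refine (sum_le_sum fun x _ => h1 x).trans ?_
    rw [sum_comm]
    have h3 : ∀ κ : Fin K, ∑ x : Vtx g (m + 2) K, ind ((x.2 i).2 = κ) * ind ((x.2 j).2 = κ) =
        Fintype.card V * (b * b * (b * K : ℝ) ^ m) := by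
      intro κ
      have h := sum_two g hg (m := m) hij (fun v ω => ind (ω.2 = κ)) (fun v ω => ind (ω.2 = κ))
      have h4 : ∀ v, ∑ ω : {e : E // g.t e = v} × Fin K, ind (ω.2 = κ) = (b : ℝ) := by
        intro v
        rw [Fintype.sum_prod_type]
        have h5 : ∑ k : Fin K, ind (k = κ) = 1 := sum_ind_eq κ
        simp only [h5, sum_const, card_univ, nsmul_eq_mul, mul_one]
        rw [Fintype.card_subtype, hg.2 v]
      simp only [h4, sum_const, card_univ, nsmul_eq_mul] at h
      rw [h]; ring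
    rw [sum_congr rfl fun κ _ => h3 κ]
    simp only [sum_const, card_univ, nsmul_eq_mul, Fintype.card_fin]
    apply le_of_eq; ring
  rw [card_vtx g hg]
  have hK : (0 : ℝ) ≤ K := by positivity
  calc _ ≤ (Fintype.card V * (K * (b * b * (b * K : ℝ) ^ m))) * K :=
        mul_le_mul_of_nonneg_right h2 hK
    _ = _ := by ring

/-- Vertices all of whose points are in a given set. -/
theorem card_all (S : Finset (U × Fin K)) (hV : 0 < Fintype.card V) (hU : 0 < Fintype.card U) :
    (Fintype.card (Vtx g (m + 2) K) : ℝ) * (S.card : ℝ) ^ (m + 2) ≤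
      (∑ x : Vtx g (m + 2) K, ind (∀ i, pt g x i ∈ S)) *
        (Fintype.card (U × Fin K) : ℝ) ^ (m + 2) := by
  set h : V → ℝ := fun v => ∑ ω : {e : E // g.t e = v} × Fin K, ind ((g.s ω.1.1, ω.2) ∈ S)
    with hh
  have e1 : ∑ x : Vtx g (m + 2) K, ind (∀ i, pt g x i ∈ S) = ∑ v, h v ^ (m + 2) := by
    rw [Fintype.sum_sigma]
    refine sum_congr rfl fun v _ => ?_
    have := sum_pi (W := {e : E // g.t e = v} × Fin K) (m := m)
      fun _ ω => ind ((g.s ω.1.1, ω.2) ∈ S)
    rw [prod_const, card_univ, Fintype.card_fin] at this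
    rw [← this]
    refine sum_congr rfl fun f _ => ?_
    rw [prod_ind]
    rfl
  have e2 : ∑ v, h v = a * S.card := by
    simp only [hh]
    rw [sum_fiber g fun e k => ind ((g.s e, k) ∈ S)]
    simp only [ind_mem S]
    have e3 : ∑ e, ∑ k, ∑ c ∈ S, ind ((g.s e, k) = c) =
        ∑ c ∈ S, ∑ e, ∑ k, ind ((g.s e, k) = c) := by
      rw [sum_comm]
      rw [sum_congr rfl fun e _ => sum_comm]
      rw [← sum_comm]
      refine sum_congr rfl fun c _ => ?_
      rw [sum_comm]
    rw [e3]
    rw [sum_congr rfl (g := fun _ => (a : ℝ))]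
    · simp [mul_comm]
    · intro c _
      rw [← sum_fiber g fun e k => ind ((g.s e, k) = c), sum_pt g c, hg.1]
  have h3 : ∀ v ∈ (univ : Finset V), 0 ≤ h v := fun v _ => sum_nonneg fun ω _ => ind_nonneg _
  have h4 := pow_sum_div_card_le_sum_pow (s := univ) (f := h) h3 (m + 1)
  rw [e2, card_univ] at h4
  rw [e1]
  have hV' : (0 : ℝ) < Fintype.card V := by exact_mod_cast hV
  have hU' : (0 : ℝ) < Fintype.card U := by exact_mod_cast hU
  have h5 : (Fintype.card (U × Fin K) : ℝ) = Fintype.card U * K := by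
    rw [Fintype.card_prod, Fintype.card_fin]; push_cast; ring
  have h6 : (a : ℝ) * Fintype.card U = b * Fintype.card V := by
    rw [← card_edges_left g hg, ← card_edges_right g hg]
  rw [card_vtx g hg, h5]
  have h7 : (Fintype.card V : ℝ) * (b * K : ℝ) ^ (m + 2) * (S.card : ℝ) ^ (m + 2) =
      ((a * S.card : ℝ) ^ (m + 1 + 1) / (Fintype.card V : ℝ) ^ (m + 1)) *
        ((Fintype.card U : ℝ) * K) ^ (m + 2) := by
    have h8 : (b : ℝ) = a * Fintype.card U / Fintype.card V := by
      rw [h6]; field_simp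
    rw [h8]
    generalize (Fintype.card V : ℝ) = A at hV'
    generalize (Fintype.card U : ℝ) = B
    have h9 : (a * B / A * K : ℝ) ^ (m + 2) = (a * B * K) ^ (m + 2) / A ^ (m + 2) := by
      rw [← div_pow]; congr 1; ring
    rw [h9, pow_succ A (m + 1)]
    field_simp
    ring
  rw [h7]
  exact mul_le_mul_of_nonneg_right h4 (by positivity)

end count

end Pool.Agent.H698.SF
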