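import Mathlib

/-! # Unique games on graphs without large induced stars: definitions -/

set_option autoImplicit false

open scoped Classical
open Finset

namespace Pool.Agent.H698.SF

/-- A unique game on a graph with the vertex set `X` and the alphabet `Q`: every pair of adjacent
vertices `x`, `y` has the constraint that the permutation `p x y` maps the label of `x` to the label
of `y`; the constraint does not depend on the order of the two vertices. -/
structure Game (X Q : Type) where
  G : SimpleGraph X
  p : X → X → Equiv.Perm Q
  symm : ∀ x y, G.Adj x y → p y x = (p x y)⁻¹

section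

variable {X Q : Type} [Fintype X]

/-- The number of ordered pairs of adjacent vertices, which is twice the number of edges. -/
noncomputable def Game.pairs (g : Game X Q) : ℕ :=
  (univ.filter fun z : X × X => g.G.Adj z.1 z.2).card

/-- The number of ordered pairs of adjacent vertices whose constraint is satisfied by the labelling
`l`, which is twice the number of satisfied edges. -/
noncomputable def Game.sat (g : Game X Q) (l : X → Q) : ℕ :=
  (univ.filter fun z : X × X => g.G.Adj z.1 z.2 ∧ g.p z.1 z.2 (l z.1) = l z.2).card

/-- No vertex has more than `r` pairwise nonadjacent neighbours, that is, the graph has no induced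
star with `r + 1` leaves. -/
def StarFree (r : ℕ) (G : SimpleGraph X) : Prop :=
  ∀ v : X, ∀ S : Finset X, (∀ u ∈ S, G.Adj v u) → (∀ u ∈ S, ∀ w ∈ S, ¬ G.Adj u w) → S.card ≤ r

/-! ### The pivot labelling -/

/-- orders of the vertices -/
abbrev Ord (X : Type) [Fintype X] : Type := X ≃ Fin (Fintype.card X)

/-- The closed neighbourhood of `u`. -/
noncomputable def nb (G : SimpleGraph X) (u : X) : Finset X :=
  univ.filter fun w => w = u ∨ G.Adj u w

theorem self_mem_nb (G : SimpleGraph X) (u : X) : u ∈ nb G u := by simp [nb]

/-- The pivot of the vertex `u`: the first element of the closed neighbourhood of `u` in the order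
`σ`. -/
noncomputable def pivot (G : SimpleGraph X) (σ : Ord X) (u : X) : X :=
  (exists_min_image (nb G u) σ ⟨u, self_mem_nb G u⟩).choose

/-- The label of `u` that is determined by the label `a` of the vertex `c` in the closed
neighbourhood of `u`. -/
noncomputable def spread (g : Game X Q) (c : X) (a : Q) (u : X) : Q :=
  if u = c then a else g.p c u a

/-- The number of ordered pairs of adjacent vertices with the pivot `c` whose constraint is satisfied
if their labels are determined by the label `a` of `c`. -/
noncomputable def inside (g : Game X Q) (σ : Ord X) (c : X) (a : Q) : ℕ :=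
  (univ.filter fun z : X × X => g.G.Adj z.1 z.2 ∧ pivot g.G σ z.1 = c ∧ pivot g.G σ z.2 = c ∧
    g.p z.1 z.2 (spread g c a z.1) = spread g c a z.2).card

variable [Fintype Q] [Nonempty Q]

/-- The best label for the pivot `c`. -/
noncomputable def best (g : Game X Q) (σ : Ord X) (c : X) : Q :=
  (exists_max_image (univ : Finset Q) (inside g σ c) univ_nonempty).choose

/-- The pivot labelling for the order `σ`: the vertices with the same pivot `c` get the labels that
are determined by the best label for `c`. -/
noncomputable def pivotLabelling (g : Game X Q) (σ : Ord X) (u : X) : Q :=
  spread g (pivot g.G σ u) (best g σ (pivot g.G σ u)) u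

end

/-! ### Bipartite unique games and the reduction -/

/-- A unique game with the left vertices `U`, the right vertices `V`, the edges `E` (there may be
parallel edges) and the alphabet `Q`: the edge `e` goes from `s e` to `t e`, and its constraint is
that `π e` maps the label of `s e` to the label of `t e`. -/
structure BGame (U V E Q : Type) where
  s : E → U
  t : E → V
  π : E → Equiv.Perm Q

section

variable {U V E Q : Type}

/-- The number of edges satisfied by the labels `l` of the left vertices and `m` of the right
vertices. -/
noncomputable def BGame.sat [Fintype E] (g : BGame U V E Q) (l : U → Q) (m : V → Q) : ℕ :=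
  (univ.filter fun e => g.π e (l (g.s e)) = m (g.t e)).card

/-- All left vertices have degree `a` and all right vertices have degree `b`. -/
def BGame.Regular [Fintype E] (g : BGame U V E Q) (a b : ℕ) : Prop :=
  (∀ u, (univ.filter fun e => g.s e = u).card = a) ∧
    ∀ v, (univ.filter fun e => g.t e = v).card = b

/-- The vertices of the new game: a right vertex `v` with `r` edges at `v` (in an order, repetitions
allowed), and a number below `K` for each of them. -/
abbrev Vtx (g : BGame U V E Q) (r K : ℕ) : Type :=
  Σ v : V, (Fin r → {e : E // g.t e = v} × Fin K)

/-- The `i`-th point of `x`: the left end of its `i`-th edge, and its `i`-th number. -/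
def pt (g : BGame U V E Q) {r K : ℕ} (x : Vtx g r K) (i : Fin r) : U × Fin K :=
  (g.s (x.2 i).1.1, (x.2 i).2)

/-- The graph: two vertices are adjacent if they have a common point. So the vertices with a given
point form a clique. -/
def redGraph (g : BGame U V E Q) (r K : ℕ) : SimpleGraph (Vtx g r K) where
  Adj x y := x ≠ y ∧ ∃ i j, pt g x i = pt g y j
  symm := ⟨by
    rintro x y ⟨h, i, j, hij⟩
    exact ⟨h.symm, j, i, hij.symm⟩⟩
  loopless := ⟨fun x h => h.1 rfl⟩

/-- The permutation of an edge of `x` that leads to the point `c`. -/
noncomputable def perm (g : BGame U V E Q) {r K : ℕ} (x : Vtx g r K) (c : U × Fin K) :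
    Equiv.Perm Q :=
  if h : ∃ i, pt g x i = c then g.π (x.2 h.choose).1.1 else 1

/-- An element of a set, if there is one. -/
noncomputable def pick {C : Type} (P : C → Prop) : Option C :=
  if h : ∃ c, P c then some h.choose else none

/-- The new game: adjacent vertices `x`, `y` have a common point `c = (u, k)`. The labels of `x` and
`y` stand for the labels of their right vertices, and the constraint is that the two edges of `x`
and `y` that lead to `c` give the same label for the left vertex `u`. -/
noncomputable def red (g : BGame U V E Q) (r K : ℕ) : Game (Vtx g r K) Q where
  G := redGraph g r K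
  p x y := match pick fun c => (∃ i, pt g x i = c) ∧ ∃ j, pt g y j = c with
    | some c => perm g y c * (perm g x c)⁻¹
    | none => 1
  symm := by
    intro x y _
    have h : (fun c => (∃ i, pt g y i = c) ∧ ∃ j, pt g x j = c) =
        fun c => (∃ i, pt g x i = c) ∧ ∃ j, pt g y j = c := by
      funext c; exact propext and_comm
    rw [h]
    cases pick fun c => (∃ i, pt g x i = c) ∧ ∃ j, pt g y j = c with
    | none => simp
    | some c => simp [mul_inv_rev]

end

end Pool.Agent.H698.SF
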