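import Pool.Agent.H698.SF.Red

/-! # The new game: soundness -/

set_option autoImplicit false
set_option linter.unusedSectionVars false

open scoped Classical
open Finset

namespace Pool.Agent.H698.SF

theorem sum_ind_eq' {α : Type} [Fintype α] (a : α) : ∑ x, ind (a = x) = 1 := by
  rw [← sum_ind_eq a]
  exact sum_congr rfl fun x _ => ind_comm _ _

theorem ind_true {P : Prop} (h : P) : ind P = 1 := by simp only [ind, h, if_true]

theorem ind_false {P : Prop} (h : ¬ P) : ind P = 0 := by simp only [ind, h, if_false]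

theorem ind_le_one (P : Prop) : ind P ≤ 1 := by unfold ind; split_ifs <;> norm_num

theorem sum_ind_mul {α : Type} [Fintype α] (a : α) (F : α → ℝ) : ∑ x, ind (a = x) * F x = F a := by
  rw [sum_eq_single a]
  · rw [ind_true rfl, one_mul]
  · intro x _ h
    rw [ind_false h.symm, zero_mul]
  · intro h; exact absurd (mem_univ _) h

theorem sum_sq_fiber {W C : Type} [Fintype W] [Fintype C] (F : W → C) :
    ∑ w, ∑ w', ind (F w = F w') = ∑ c, (∑ w, ind (F w = c)) ^ 2 := by
  have h1 : ∀ c, (∑ w, ind (F w = c)) ^ 2 = ∑ w, ∑ w', ind (F w = c) * ind (F w' = c) := by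
    intro c
    rw [pow_two, sum_mul_sum]
  symm
  rw [sum_congr rfl fun c _ => h1 c, sum_comm]
  refine sum_congr rfl fun w _ => ?_
  rw [sum_comm]
  refine sum_congr rfl fun w' _ => ?_
  rw [sum_ind_mul (F w) fun c => ind (F w' = c), ind_comm]

section

variable {U V E Q : Type} [Fintype U] [Fintype V] [Fintype E] [Fintype Q] [Nonempty Q]
  (g : BGame U V E Q) {a b : ℕ} (hg : g.Regular a b) {m K : ℕ}

/-- list decoding at the left vertices -/
theorem decode (H : U × Fin K → Q → Prop) (L δ : ℝ) (hL0 : 0 ≤ L)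
    (hL : ∀ c, ∑ q, ind (H c q) ≤ L)
    (hδ : ∀ l l', (g.sat l l' : ℝ) ≤ δ * Fintype.card E) (β : V → Q) :
    ∑ e, ∑ k, ind (H (g.s e, k) ((g.π e)⁻¹ (β (g.t e)))) ≤ K * (L * (δ * Fintype.card E)) := by
  rw [sum_comm]
  have key : ∀ k : Fin K, ∑ e, ind (H (g.s e, k) ((g.π e)⁻¹ (β (g.t e)))) ≤
      L * (δ * Fintype.card E) := by
    intro k
    have hM : ∀ u : U, ∃ q0 : Q, ∀ q : Q,
        ∑ e, ind (g.s e = u) * ind (g.π e q = β (g.t e)) ≤
        ∑ e, ind (g.s e = u) * ind (g.π e q0 = β (g.t e)) := by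
      intro u
      obtain ⟨q0, -, h⟩ := exists_max_image (univ : Finset Q)
        (fun q => ∑ e, ind (g.s e = u) * ind (g.π e q = β (g.t e))) univ_nonempty
      exact ⟨q0, fun q => h q (mem_univ q)⟩
    choose l0 hl0 using hM
    have e1 : ∀ e, ind (H (g.s e, k) ((g.π e)⁻¹ (β (g.t e)))) =
        ∑ u, ∑ q, ind (H (u, k) q) * (ind (g.s e = u) * ind (g.π e q = β (g.t e))) := by
      intro e
      have f1 : ∀ u, ∑ q, ind (H (u, k) q) * (ind (g.s e = u) * ind (g.π e q = β (g.t e))) =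
          ind (g.s e = u) * ∑ q, ind (H (u, k) q) * ind (g.π e q = β (g.t e)) := by
        intro u
        rw [mul_sum]
        exact sum_congr rfl fun q _ => by ring
      rw [sum_congr rfl fun u _ => f1 u, sum_ind_mul]
      have f2 : ∀ q, ind (H (g.s e, k) q) * ind (g.π e q = β (g.t e)) =
          ind ((g.π e)⁻¹ (β (g.t e)) = q) * ind (H (g.s e, k) q) := by
        intro q
        rw [mul_comm]
        congr 1
        by_cases h : g.π e q = β (g.t e)
        · have h2 : (g.π e)⁻¹ (β (g.t e)) = q := by rw [← h]; simp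
          rw [ind_true h, ind_true h2]
        · have h2 : ¬ (g.π e)⁻¹ (β (g.t e)) = q := by
            intro h3; apply h; rw [← h3]; simp
          rw [ind_false h, ind_false h2]
      rw [sum_congr rfl fun q _ => f2 q, sum_ind_mul]
    rw [sum_congr rfl fun e _ => e1 e, sum_comm]
    have e2 : ∀ u, ∑ e, ∑ q, ind (H (u, k) q) * (ind (g.s e = u) * ind (g.π e q = β (g.t e))) ≤
        L * ∑ e, ind (g.s e = u) * ind (g.π e (l0 u) = β (g.t e)) := by
      intro u
      rw [sum_comm]
      have f1 : ∀ q, ∑ e, ind (H (u, k) q) * (ind (g.s e = u) * ind (g.π e q = β (g.t e))) ≤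
          ind (H (u, k) q) * ∑ e, ind (g.s e = u) * ind (g.π e (l0 u) = β (g.t e)) := by
        intro q
        rw [← mul_sum]
        exact mul_le_mul_of_nonneg_left (hl0 u q) (ind_nonneg _)
      refine (sum_le_sum fun q _ => f1 q).trans ?_
      rw [← sum_mul]
      exact mul_le_mul_of_nonneg_right (hL _)
        (sum_nonneg fun e _ => mul_nonneg (ind_nonneg _) (ind_nonneg _))
    refine (sum_le_sum fun u _ => e2 u).trans ?_
    rw [← mul_sum]
    apply mul_le_mul_of_nonneg_left _ hL0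
    refine le_trans (le_of_eq ?_) (hδ l0 β)
    rw [sum_comm]
    unfold BGame.sat
    rw [card_eq_ind]
    refine sum_congr rfl fun e _ => ?_
    rw [sum_ind_mul (g.s e) fun u => ind (g.π e (l0 u) = β (g.t e))]
  refine (sum_le_sum fun k _ => key k).trans (le_of_eq ?_)
  simp

include hg

/-- Few vertices have two slots whose labels are in a short list. -/
theorem two_good (H : U × Fin K → Q → Prop) (L δ : ℝ) (hL0 : 0 ≤ L)
    (hL : ∀ c, ∑ q, ind (H c q) ≤ L)
    (hδ : ∀ l l', (g.sat l l' : ℝ) ≤ δ * Fintype.card E)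
    (l : Vtx g (m + 2) K → Q) {i j : Fin (m + 2)} (hij : i ≠ j) :
    ∑ x : Vtx g (m + 2) K, ind (H (pt g x i) (lab g l x i)) * ind (H (pt g x j) (lab g l x j)) ≤
      L ^ 2 * δ * Fintype.card (Vtx g (m + 2) K) := by
  set φ : Q → ∀ v : V, {e : E // g.t e = v} × Fin K → ℝ :=
    fun q _ ω => ind (H (g.s ω.1.1, ω.2) ((g.π ω.1.1)⁻¹ q)) with hφ
  have hφ0 : ∀ q v ω, 0 ≤ φ q v ω := fun q v ω => ind_nonneg _
  have h1 : ∀ x : Vtx g (m + 2) K,
      ind (H (pt g x i) (lab g l x i)) * ind (H (pt g x j) (lab g l x j)) ≤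
      ∑ q, φ q x.1 (x.2 i) * φ q x.1 (x.2 j) := by
    intro x
    exact single_le_sum (f := fun q => φ q x.1 (x.2 i) * φ q x.1 (x.2 j))
      (fun q _ => mul_nonneg (hφ0 _ _ _) (hφ0 _ _ _)) (mem_univ (l x))
  refine (sum_le_sum fun x _ => h1 x).trans ?_
  rw [sum_comm]
  rw [sum_congr rfl fun q _ => sum_two g hg (m := m) hij (φ q) (φ q)]
  rw [← sum_mul, sum_comm]
  have h2 : ∀ v, ∃ q0 : Q, ∀ q : Q, ∑ ω, φ q v ω ≤ ∑ ω, φ q0 v ω := by
    intro v
    obtain ⟨q0, -, h⟩ := exists_max_image (univ : Finset Q)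
      (fun q => ∑ ω, φ q v ω) univ_nonempty
    exact ⟨q0, fun q => h q (mem_univ q)⟩
  choose β hβ using h2
  have h3 : ∀ v, ∑ q, ∑ ω, φ q v ω ≤ (b * K : ℝ) * L := by
    intro v
    rw [sum_comm]
    have e1 : ∀ ω : {e : E // g.t e = v} × Fin K, ∑ q, φ q v ω ≤ L := by
      intro ω
      refine le_trans (le_of_eq ?_) (hL (g.s ω.1.1, ω.2))
      exact Equiv.sum_comp ((g.π ω.1.1)⁻¹ : Equiv.Perm Q) fun q => ind (H (g.s ω.1.1, ω.2) q)
    refine (sum_le_sum fun ω _ => e1 ω).trans (le_of_eq ?_)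
    rw [sum_const, card_univ, nsmul_eq_mul, card_fiber_real g hg v]
  have h4 : ∀ v, ∑ q, (∑ ω, φ q v ω) * ∑ ω, φ q v ω ≤
      (∑ ω, φ (β v) v ω) * ((b * K : ℝ) * L) := by
    intro v
    have e0 : ∀ q, 0 ≤ ∑ ω, φ q v ω := fun q => sum_nonneg fun ω _ => hφ0 _ _ _
    refine (sum_le_sum fun q _ => mul_le_mul_of_nonneg_right (hβ v q) (e0 q)).trans ?_
    rw [← mul_sum]
    exact mul_le_mul_of_nonneg_left (h3 v) (e0 _)
  have h5 : ∑ v, ∑ ω, φ (β v) v ω ≤ K * (L * (δ * Fintype.card E)) := by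
    refine le_trans (le_of_eq ?_) (decode g H L δ hL0 hL hδ β)
    rw [← sum_fiber g fun e k => ind (H (g.s e, k) ((g.π e)⁻¹ (β (g.t e))))]
    refine sum_congr rfl fun v _ => sum_congr rfl fun ω _ => ?_
    simp only [hφ]
    rw [ω.1.2]
  have h6 : ∑ v, ∑ q, (∑ ω, φ q v ω) * ∑ ω, φ q v ω ≤
      (K * (L * (δ * Fintype.card E))) * ((b * K : ℝ) * L) := by
    refine (sum_le_sum fun v _ => h4 v).trans ?_
    rw [← sum_mul]
    exact mul_le_mul_of_nonneg_right h5 (by positivity)
  refine (mul_le_mul_of_nonneg_right h6 (by positivity)).trans (le_of_eq ?_)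
  rw [card_vtx g hg, card_edges_right g hg]
  ring

/-- The number of satisfied edges. -/
theorem sat_bound (η δ : ℝ) (hη : 0 < η) (ha : 0 < a) (hb : 0 < b) (hK : 0 < K)
    (hU : 0 < Fintype.card U) (hV : 0 < Fintype.card V)
    (hδ : ∀ l l', (g.sat l l' : ℝ) ≤ δ * Fintype.card E)
    (l : Vtx g (m + 2) K → Q) :
    ((red g (m + 2) K).sat l : ℝ) ≤
      Fintype.card (U × Fin K) * ((m + 2) * a * (b * K : ℝ) ^ (m + 1)) ^ 2 *
        (1 / (2 * m + 3) + 1 / Fintype.card (U × Fin K) + 2 * (m + 2) * δ / η ^ 2 + η) := by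
  have ha' : (0 : ℝ) < a := by exact_mod_cast ha
  have hb' : (0 : ℝ) < b := by exact_mod_cast hb
  have hK' : (0 : ℝ) < K := by exact_mod_cast hK
  set n : ℝ := (Fintype.card (U × Fin K) : ℝ) with hn
  set N : ℝ := (Fintype.card (Vtx g (m + 2) K) : ℝ) with hN
  set R : ℝ := (m + 2) * a * (b * K : ℝ) ^ (m + 1) with hR
  have hR0 : 0 < R := by positivity
  have hn0 : 0 < n := by
    rw [hn, Fintype.card_prod, Fintype.card_fin]
    exact_mod_cast Nat.mul_pos hU hK
  -- counts
  set cnt : U × Fin K → Q → ℝ := fun c q =>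
    ∑ x : Vtx g (m + 2) K, ∑ i, ind (pt g x i = c) * ind (lab g l x i = q) with hcnt
  have hcnt0 : ∀ c q, 0 ≤ cnt c q := fun c q =>
    sum_nonneg fun x _ => sum_nonneg fun i _ => mul_nonneg (ind_nonneg _) (ind_nonneg _)
  have hcntR : ∀ c, ∑ q, cnt c q = R := by
    intro c
    rw [hR, ← slots_of_point g hg c]
    simp only [hcnt]
    rw [sum_comm]
    refine sum_congr rfl fun x _ => ?_
    rw [sum_comm]
    refine sum_congr rfl fun i _ => ?_
    rw [← mul_sum, sum_ind_eq', mul_one]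
  set Hv : U × Fin K → Q → Prop := fun c q => η * R ≤ cnt c q with hHv
  have hL : ∀ c, ∑ q, ind (Hv c q) ≤ 1 / η := by
    intro c
    have h1 : (∑ q, ind (Hv c q)) * (η * R) ≤ ∑ q, cnt c q := by
      rw [sum_mul]
      refine sum_le_sum fun q _ => ?_
      by_cases h : Hv c q
      · rw [ind_true h, one_mul]; exact h
      · rw [ind_false h, zero_mul]; exact hcnt0 c q
    rw [hcntR] at h1
    rw [le_div_iff₀ hη]
    have h2 : ((∑ q, ind (Hv c q)) * η) * R ≤ 1 * R := by linarith
    exact le_of_mul_le_mul_right h2 hR0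
  set Good : Vtx g (m + 2) K → Fin (m + 2) → Prop := fun x i => Hv (pt g x i) (lab g l x i)
    with hGood
  set A : Vtx g (m + 2) K → Fin (m + 2) → Prop := fun x i => Good x i ∧ ∀ j, Good x j → j = i
    with hA
  set Hc : U × Fin K → ℝ := fun c =>
    ∑ x : Vtx g (m + 2) K, ∑ i, ind (pt g x i = c) * ind (Good x i) with hHc
  set Gc : U × Fin K → ℝ := fun c =>
    ∑ x : Vtx g (m + 2) K, ∑ i, ind (pt g x i = c) * ind (A x i) with hGc
  set Bc : U × Fin K → ℝ := fun c =>
    ∑ x : Vtx g (m + 2) K, ∑ i, ind (pt g x i = c) * ind (Good x i ∧ ¬ A x i) with hBc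
  have hHc2 : ∀ c, Hc c = ∑ q, ind (Hv c q) * cnt c q := by
    intro c
    simp only [hcnt, mul_sum]
    rw [sum_comm]
    refine sum_congr rfl fun x _ => ?_
    rw [sum_comm]
    refine sum_congr rfl fun i _ => ?_
    have e1 : ∀ q, ind (Hv c q) * (ind (pt g x i = c) * ind (lab g l x i = q)) =
        ind (lab g l x i = q) * (ind (pt g x i = c) * ind (Hv c q)) := fun q => by ring
    rw [sum_congr rfl fun q _ => e1 q, sum_ind_mul]
    by_cases h : pt g x i = c
    · simp only [hGood, h]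
    · rw [ind_false h, zero_mul, zero_mul]
  have hsplit : ∀ c, Hc c = Gc c + Bc c := by
    intro c
    simp only [hHc, hGc, hBc]
    rw [← sum_add_distrib]
    refine sum_congr rfl fun x _ => ?_
    rw [← sum_add_distrib]
    refine sum_congr rfl fun i _ => ?_
    rw [← mul_add]
    congr 1
    by_cases h1 : A x i
    · have h2 : Good x i := h1.1
      rw [ind_true h1, ind_true h2, ind_false (fun h => h.2 h1), add_zero]
    · by_cases h2 : Good x i
      · rw [ind_false h1, ind_true h2, ind_true ⟨h2, h1⟩, zero_add]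
      · rw [ind_false h1, ind_false h2, ind_false (fun h => h2 h.1), zero_add]
  have hGc0 : ∀ c, 0 ≤ Gc c := fun c =>
    sum_nonneg fun x _ => sum_nonneg fun i _ => mul_nonneg (ind_nonneg _) (ind_nonneg _)
  have hBc0 : ∀ c, 0 ≤ Bc c := fun c =>
    sum_nonneg fun x _ => sum_nonneg fun i _ => mul_nonneg (ind_nonneg _) (ind_nonneg _)
  have hHR : ∀ c, Hc c ≤ R := by
    intro c
    rw [hR, ← slots_of_point g hg c]
    refine sum_le_sum fun x _ => sum_le_sum fun i _ => ?_
    exact mul_le_of_le_one_right (ind_nonneg _) (ind_le_one _)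
  -- step 1
  have s1 : ((red g (m + 2) K).sat l : ℝ) ≤ ∑ c, ∑ q, cnt c q ^ 2 := by
    refine (sat_le g l).trans (le_of_eq ?_)
    have h1 := sum_sq_fiber (W := Vtx g (m + 2) K × Fin (m + 2)) (C := (U × Fin K) × Q)
      fun w => (pt g w.1 w.2, lab g l w.1 w.2)
    simp only [Fintype.sum_prod_type, Prod.mk.injEq] at h1
    rw [h1]
    rw [Fintype.sum_prod_type]
    refine sum_congr rfl fun u _ => sum_congr rfl fun k _ => sum_congr rfl fun q _ => ?_
    congr 1
    refine sum_congr rfl fun x _ => sum_congr rfl fun i _ => ?_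
    rw [ind_and]
  -- step 2
  have s2 : ∀ c, ∑ q, cnt c q ^ 2 ≤ Hc c ^ 2 + η * R * R := by
    intro c
    have h1 : ∀ q, cnt c q ^ 2 ≤ (ind (Hv c q) * cnt c q) * Hc c + (η * R) * cnt c q := by
      intro q
      by_cases h : Hv c q
      · have h2 : cnt c q ≤ Hc c := by
          rw [hHc2]
          have h3 : ind (Hv c q) * cnt c q ≤ ∑ q, ind (Hv c q) * cnt c q :=
            single_le_sum (f := fun q => ind (Hv c q) * cnt c q)
              (fun q _ => mul_nonneg (ind_nonneg _) (hcnt0 c q)) (mem_univ q)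
          rw [ind_true h, one_mul] at h3
          exact h3
        rw [ind_true h, one_mul, pow_two]
        have h3 := mul_le_mul_of_nonneg_left h2 (hcnt0 c q)
        have h4 : 0 ≤ (η * R) * cnt c q := mul_nonneg (by positivity) (hcnt0 c q)
        linarith
      · rw [ind_false h, zero_mul, zero_mul, zero_add, pow_two]
        have h2 : cnt c q ≤ η * R := (not_le.1 h).le
        exact mul_le_mul_of_nonneg_right h2 (hcnt0 c q)
    refine (sum_le_sum fun q _ => h1 q).trans (le_of_eq ?_)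
    rw [sum_add_distrib, ← sum_mul, ← mul_sum, hcntR, ← hHc2, pow_two]
  -- step 3
  have s3 : ∀ c, Hc c ^ 2 ≤ Gc c ^ 2 + 2 * R * Bc c := by
    intro c
    have h1 : Hc c ^ 2 = Gc c ^ 2 + (Hc c + Gc c) * Bc c := by rw [hsplit]; ring
    rw [h1]
    have h2 : Gc c ≤ R := by
      have := hHR c
      have h3 := hsplit c
      have h4 := hBc0 c
      linarith
    have h3 : Hc c + Gc c ≤ 2 * R := by linarith [hHR c]
    have := mul_le_mul_of_nonneg_right h3 (hBc0 c)
    linarith
  -- step 4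
  have s4 : ∑ c, Gc c ^ 2 ≤ R ^ 2 * (n / (2 * m + 3) + 1) := by
    have h1 := main_ineq g hg (m := m) (K := K) A
      (fun x i j hi hj => (hj.2 i hi.1)) hV hU hK
    refine le_trans (le_of_eq ?_) h1
    refine sum_congr rfl fun c _ => ?_
    congr 1
    rw [card_eq_ind, Fintype.sum_prod_type]
    exact sum_congr rfl fun x _ => sum_congr rfl fun i _ => (ind_and _ _).symm
  -- step 5
  have s5 : ∑ c, Bc c ≤ (m + 2) ^ 2 * ((1 / η) ^ 2 * δ * N) := by
    have h1 : ∑ c, Bc c = ∑ x : Vtx g (m + 2) K, ∑ i, ind (Good x i ∧ ¬ A x i) := by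
      simp only [hBc]
      rw [sum_comm]
      refine sum_congr rfl fun x _ => ?_
      rw [sum_comm]
      refine sum_congr rfl fun i _ => ?_
      exact sum_ind_mul (pt g x i) fun _ => ind (Good x i ∧ ¬ A x i)
    rw [h1]
    have h2 : ∀ x : Vtx g (m + 2) K, ∀ i, ind (Good x i ∧ ¬ A x i) ≤
        ∑ j, ind (i ≠ j) * (ind (Good x i) * ind (Good x j)) := by
      intro x i
      have h0 : ∀ j, 0 ≤ ind (i ≠ j) * (ind (Good x i) * ind (Good x j)) := fun j =>
        mul_nonneg (ind_nonneg _) (mul_nonneg (ind_nonneg _) (ind_nonneg _))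
      by_cases h : Good x i ∧ ¬ A x i
      · obtain ⟨h3, h4⟩ := h
        have h5 : ∃ j, Good x j ∧ j ≠ i := by
          by_contra h6
          push Not at h6
          exact h4 ⟨h3, h6⟩
        obtain ⟨j, hj, hji⟩ := h5
        have h6 : ind (i ≠ j) * (ind (Good x i) * ind (Good x j)) ≤
            ∑ j, ind (i ≠ j) * (ind (Good x i) * ind (Good x j)) :=
          single_le_sum (f := fun j => ind (i ≠ j) * (ind (Good x i) * ind (Good x j)))
            (fun j _ => h0 j) (mem_univ j)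
        have h7 : ind (i ≠ j) * (ind (Good x i) * ind (Good x j)) = 1 := by
          rw [ind_true hji.symm, ind_true h3, ind_true hj, one_mul, one_mul]
        rw [h7] at h6
        exact (ind_le_one _).trans h6
      · rw [ind_false h]
        exact sum_nonneg fun j _ => h0 j
    refine (sum_le_sum fun x _ => sum_le_sum fun i _ => h2 x i).trans ?_
    rw [sum_comm]
    have h3 : ∀ i : Fin (m + 2), ∑ x : Vtx g (m + 2) K,
        ∑ j, ind (i ≠ j) * (ind (Good x i) * ind (Good x j)) ≤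
        (m + 2) * ((1 / η) ^ 2 * δ * N) := by
      intro i
      rw [sum_comm]
      have hNN : 0 ≤ (1 / η) ^ 2 * δ * N := by
        have h01 : (⟨0, by omega⟩ : Fin (m + 2)) ≠ ⟨1, by omega⟩ := by
          intro h; simpa using congrArg Fin.val h
        have := two_good g hg (m := m) Hv (1 / η) δ (by positivity) hL hδ l h01
        exact (sum_nonneg fun x _ => mul_nonneg (ind_nonneg _) (ind_nonneg _)).trans this
      have h4 : ∀ j : Fin (m + 2), ∑ x : Vtx g (m + 2) K,
          ind (i ≠ j) * (ind (Good x i) * ind (Good x j)) ≤ (1 / η) ^ 2 * δ * N := by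
        intro j
        rw [← mul_sum]
        by_cases h : i = j
        · rw [ind_false (fun h2 => h2 h), zero_mul]
          exact hNN
        · rw [ind_true h, one_mul]
          exact two_good g hg (m := m) Hv (1 / η) δ (by positivity) hL hδ l h
      refine (sum_le_sum fun j _ => h4 j).trans (le_of_eq ?_)
      simp
    refine (sum_le_sum fun i _ => h3 i).trans (le_of_eq ?_)
    simp
    ring
  -- conclusion
  have s6 : N * (m + 2) = n * R := by
    rw [hN, hn, hR]; exact slots_total g hg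
  have s7 : ((red g (m + 2) K).sat l : ℝ) ≤
      R ^ 2 * (n / (2 * m + 3) + 1) + 2 * R * ((m + 2) ^ 2 * ((1 / η) ^ 2 * δ * N)) +
        n * (η * R * R) := by
    refine s1.trans ((sum_le_sum fun c _ => s2 c).trans ?_)
    rw [sum_add_distrib]
    have h1 : ∑ _c : U × Fin K, η * R * R = n * (η * R * R) := by
      rw [sum_const, card_univ, nsmul_eq_mul]
    rw [h1]
    have h2 : ∑ c, Hc c ^ 2 ≤ ∑ c, Gc c ^ 2 + 2 * R * ∑ c, Bc c := by
      refine (sum_le_sum fun c _ => s3 c).trans (le_of_eq ?_)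
      rw [sum_add_distrib, ← mul_sum]
    have h3 := mul_le_mul_of_nonneg_left s5 (by positivity : 0 ≤ 2 * R)
    linarith
  refine s7.trans (le_of_eq ?_)
  have h8 : 2 * R * ((m + 2) ^ 2 * ((1 / η) ^ 2 * δ * N)) =
      2 * R * (m + 2) * (1 / η) ^ 2 * δ * (N * (m + 2)) := by ring
  rw [h8, s6]
  field_simp

end

end Pool.Agent.H698.SF
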