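import Pool.Agent.H698.SF.Alg
import Pool.Agent.H698.SF.Sound

/-! # Unique games on graphs without induced stars with `r + 1` leaves: the threshold -/

set_option autoImplicit false
set_option linter.unusedSectionVars false

open scoped Classical
open Finset

namespace Pool.Agent.H698.SF

theorem arith {c K η x X : ℝ} (hK : 0 < K) (hη : 0 < η) (hη1 : η ≤ 1)
    (hKc : 8 * c ≤ η * K) (hx0 : 0 < x) (hx : x ≤ 1 / 3) (hX : X ≤ x + η / 2) (hc : 1 ≤ c) :
    X ≤ (x + η) * (1 - c / K) := by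
  have h1 : c / K ≤ η / 8 := by
    rw [div_le_iff₀ hK]; linarith
  have h2 : 0 ≤ c / K := by positivity
  nlinarith

/-- Optimality of the threshold. -/
theorem optimal (m : ℕ) (η : ℝ) (hη : 0 < η) : ∃ δ : ℝ, 0 < δ ∧ ∃ K₀ : ℕ, ∀ K : ℕ, K₀ ≤ K →
    ∀ (U V E Q : Type) [Fintype U] [Fintype V] [Fintype E] [Fintype Q] [Nonempty U] [Nonempty Q]
      (g : BGame U V E Q) (a b : ℕ), 0 < a → 0 < b → g.Regular a b →
      StarFree (m + 2) (red g (m + 2) K).G ∧
      (∀ (l : U → Q) (l' : V → Q) (ε : ℝ), 0 ≤ ε → (1 - ε) * Fintype.card E ≤ g.sat l l' →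
        (1 - 3 * ε) * (red g (m + 2) K).pairs ≤
          ((red g (m + 2) K).sat fun x => l' x.1 : ℝ)) ∧
      ((∀ l l', (g.sat l l' : ℝ) ≤ δ * Fintype.card E) →
        ∀ l : Vtx g (m + 2) K → Q,
          ((red g (m + 2) K).sat l : ℝ) ≤ (1 / (2 * m + 3) + η) * (red g (m + 2) K).pairs) := by
  set η' : ℝ := min η 1 with hη'
  have hη'0 : 0 < η' := lt_min hη one_pos
  have hη'1 : η' ≤ 1 := min_le_right _ _
  have hη'2 : η' ≤ η := min_le_left _ _
  set c : ℝ := (m + 2) ^ 2 + 1 with hc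
  have hc1 : 1 ≤ c := by rw [hc]; nlinarith [sq_nonneg ((m : ℝ) + 2)]
  refine ⟨η' * (η' / 8) ^ 2 / (16 * (m + 2)), by positivity, ⌈8 * c / η'⌉₊ + 1, ?_⟩
  intro K hK U V E Q _ _ _ _ _ _ g a b ha hb hg
  have hK0 : 0 < K := by omega
  have hK' : (0 : ℝ) < K := by exact_mod_cast hK0
  have hKc : 8 * c ≤ η' * K := by
    have h1 : 8 * c / η' ≤ ⌈8 * c / η'⌉₊ := Nat.le_ceil _
    have h2 : ((⌈8 * c / η'⌉₊ + 1 : ℕ) : ℝ) ≤ K := by exact_mod_cast hK
    push_cast at h2
    have h3 : 8 * c / η' ≤ K := by linarith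
    rw [div_le_iff₀ hη'0] at h3
    linarith
  have hU : 0 < Fintype.card U := Fintype.card_pos
  have hE : 0 < Fintype.card E := by
    have h1 := card_edges_left g hg
    have h2 : (0 : ℝ) < Fintype.card E := by
      rw [h1]
      have : (0 : ℝ) < a := by exact_mod_cast ha
      have : (0 : ℝ) < Fintype.card U := by exact_mod_cast hU
      positivity
    exact_mod_cast h2
  have hV : 0 < Fintype.card V := by
    obtain ⟨e⟩ := Fintype.card_pos_iff.1 hE
    exact Fintype.card_pos_iff.2 ⟨g.t e⟩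
  have hpairs := pairs_ge g hg (m := m) (K := K) ha hb hK0
  set W : ℝ := Fintype.card (U × Fin K) * ((m + 2) * a * (b * K : ℝ) ^ (m + 1)) ^ 2 with hW
  have hW0 : 0 ≤ W := by positivity
  have hcK : c / K ≤ 1 / 8 := by
    rw [div_le_iff₀ hK']
    have : η' * K ≤ 1 * K := mul_le_mul_of_nonneg_right hη'1 hK'.le
    linarith
  have hcK0 : 0 ≤ c / K := by positivity
  refine ⟨starFree g (m + 2) K, ?_, ?_⟩
  · intro l l' ε hε h
    have h1 := complete g hg (m := m) (K := K) l l' ε h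
    rw [← hW] at h1
    have h2 : 2 * ε * W ≤ 3 * ε * (red g (m + 2) K).pairs := by
      have h3 : 2 * W ≤ 3 * (W * (1 - c / K)) := by nlinarith
      have h4 : 2 * W ≤ 3 * ((red g (m + 2) K).pairs : ℝ) := by linarith
      have h5 := mul_le_mul_of_nonneg_left h4 hε
      linarith
    linarith
  · intro hδ l
    have h1 := sat_bound g hg (m := m) (K := K) (η' / 8) _ (by positivity) ha hb hK0 hU hV hδ l
    rw [← hW] at h1
    have hn : (K : ℝ) ≤ Fintype.card (U × Fin K) := by
      rw [Fintype.card_prod, Fintype.card_fin]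
      have : K ≤ Fintype.card U * K := Nat.le_mul_of_pos_left _ hU
      exact_mod_cast this
    have e1 : (1 : ℝ) / Fintype.card (U × Fin K) ≤ η' / 8 := by
      rw [div_le_iff₀ (by linarith)]
      have h2 : 8 ≤ η' * K := by linarith
      have h3 : η' * K ≤ η' * Fintype.card (U × Fin K) := mul_le_mul_of_nonneg_left hn hη'0.le
      linarith
    have e2 : 2 * (m + 2 : ℝ) * (η' * (η' / 8) ^ 2 / (16 * (m + 2))) / (η' / 8) ^ 2 = η' / 8 := by
      field_simp
      ring
    rw [e2] at h1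
    have h2 : (1 / (2 * m + 3) + 1 / Fintype.card (U × Fin K) + η' / 8 + η' / 8 : ℝ) ≤
        (1 / (2 * m + 3) + η') * (1 - c / K) := by
      have hm : (0 : ℝ) ≤ m := by positivity
      apply arith hK' hη'0 hη'1 hKc (by positivity) _ _ hc1
      · rw [div_le_div_iff_of_pos_left one_pos (by positivity) (by norm_num)]
        linarith
      · linarith
    have h3 := mul_le_mul_of_nonneg_left h2 hW0
    have h4 : (0 : ℝ) ≤ 1 / (2 * m + 3) + η' := by positivity
    have h5 := mul_le_mul_of_nonneg_left hpairs h4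
    have h6 : (1 / (2 * m + 3) + η') * ((red g (m + 2) K).pairs : ℝ) ≤
        (1 / (2 * m + 3) + η) * (red g (m + 2) K).pairs :=
      mul_le_mul_of_nonneg_right (by linarith) (by positivity)
    calc ((red g (m + 2) K).sat l : ℝ) ≤ _ := h1
      _ ≤ _ := h3
      _ = (1 / (2 * m + 3) + η') * (W * (1 - c / K)) := by ring
      _ ≤ _ := h5
      _ ≤ _ := h6

end Pool.Agent.H698.SF
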