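import Pool.Agent.H698.SF.Count

/-! # The maximum of a function over the points of a vertex -/

set_option autoImplicit false
set_option linter.unusedSectionVars false

open scoped Classical
open Finset

namespace Pool.Agent.H698.SF

theorem layer {M R0 : ℕ} (h : M ≤ R0) : (M : ℝ) = ∑ t ∈ range R0, (1 - ind (M ≤ t)) := by
  have h1 : ∀ t ∈ range R0, (1 - ind (M ≤ t)) = if t ∈ range M then (1 : ℝ) else 0 := by
    intro t _
    unfold ind
    by_cases h2 : M ≤ t
    · simp [h2]
    · simp [h2, not_le.1 h2]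
  rw [sum_congr rfl h1, ← sum_filter]
  have h2 : (range R0).filter (fun t => t ∈ range M) = range M := by
    ext t
    simp only [mem_filter, mem_range]
    omega
  rw [h2]
  simp

theorem pow_step (n k : ℕ) : ((n : ℝ)) ^ (k + 1) + (k + 1) * (n : ℝ) ^ k ≤ (n + 1 : ℝ) ^ (k + 1) := by
  have hn : (0 : ℝ) ≤ n := by positivity
  induction k with
  | zero => simp
  | succ k ih =>
    have h1 : (n + 1 : ℝ) ^ (k + 1 + 1) = (n + 1) * (n + 1 : ℝ) ^ (k + 1) := by ring
    rw [h1]
    have h2 := mul_le_mul_of_nonneg_left ih (by linarith : (0 : ℝ) ≤ n + 1)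
    refine le_trans ?_ h2
    have h3 : (0 : ℝ) ≤ (k + 1) * (n : ℝ) ^ k := by positivity
    push_cast
    have h4 : (n : ℝ) ^ (k + 1) = n * (n : ℝ) ^ k := by ring
    have h5 : (n : ℝ) ^ (k + 1 + 1) = n * (n * (n : ℝ) ^ k) := by ring
    rw [h5, h4]
    nlinarith

theorem sum_pow_le (n k : ℕ) : (k + 1) * ∑ j ∈ range n, (j : ℝ) ^ k ≤ (n : ℝ) ^ (k + 1) := by
  induction n with
  | zero => simp
  | succ n ih =>
    rw [sum_range_succ, mul_add]
    push_cast
    have := pow_step n k
    linarith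

theorem sum_pow_le' (n k : ℕ) :
    ∑ j ∈ range (n + 1), (j : ℝ) ^ k ≤ (n : ℝ) ^ (k + 1) / (k + 1) + (n : ℝ) ^ k := by
  rw [sum_range_succ]
  have h1 := sum_pow_le n k
  have h2 : (0 : ℝ) < k + 1 := by positivity
  have h3 : ∑ j ∈ range n, (j : ℝ) ^ k ≤ (n : ℝ) ^ (k + 1) / (k + 1) := by
    rw [le_div_iff₀ h2]; linarith
  linarith

section iid

variable {C : Type} [Fintype C] {m : ℕ}

theorem sum_all (S : Finset C) :
    ∑ c : Fin (m + 2) → C, ind (∀ i, c i ∈ S) = (S.card : ℝ) ^ (m + 2) := by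
  have h := sum_pi (m := m) fun _ (c : C) => ind (c ∈ S)
  rw [prod_const, card_univ, Fintype.card_fin] at h
  have h2 : ∑ c : C, ind (c ∈ S) = S.card := by
    have := card_eq_ind fun c : C => c ∈ S
    rw [← this]
    simp
  rw [h2] at h
  rw [← h]
  exact sum_congr rfl fun c _ => (prod_ind _).symm

/-- a rank function for `G` -/
theorem exists_rank (G : C → ℕ) : ∃ D : C → Finset C,
    (∀ c : Fin (m + 2) → C, ∃ i, (univ.sup fun j => G (c j)) ≤ G (c i) ∧ ∀ j, c j ∈ D (c i)) ∧
    (∀ k : ℕ, ∑ c, ((D c).card : ℝ) ^ k ≤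
      ∑ j ∈ range (Fintype.card C + 1), (j : ℝ) ^ k) ∧ ∀ c, c ∈ D c := by
  let e := Fintype.equivFin C
  let key : C → ℕ ×ₗ Fin (Fintype.card C) := fun c => toLex (G c, e c)
  have hkey : ∀ c d, key c ≤ key d → G c ≤ G d := by
    intro c d h
    rcases Prod.Lex.le_iff.1 h with h | h
    · exact h.le
    · exact h.1.le
  have hinj : ∀ c d, key c = key d → c = d := by
    intro c d h
    have := congrArg (fun z => (ofLex z).2) h
    exact e.injective this
  refine ⟨fun c => univ.filter fun d => key d ≤ key c, ?_, ?_, ?_⟩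
  · intro c
    obtain ⟨i, _, hi⟩ := exists_max_image (univ : Finset (Fin (m + 2))) (fun i => key (c i))
      ⟨0, mem_univ _⟩
    refine ⟨i, ?_, ?_⟩
    · exact Finset.sup_le fun j _ => hkey _ _ (hi j (mem_univ j))
    · intro j
      simp only [mem_filter, mem_univ, true_and]
      exact hi j (mem_univ j)
  · intro k
    have h1 : Function.Injective fun c => (univ.filter fun d => key d ≤ key c).card := by
      have aux : ∀ c d, key c < key d → (univ.filter fun z => key z ≤ key c).card <
          (univ.filter fun z => key z ≤ key d).card := by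
        intro c d h
        apply card_lt_card
        refine ⟨?_, ?_⟩
        · intro z hz
          simp only [mem_filter, mem_univ, true_and] at hz ⊢
          exact hz.trans h.le
        · intro hs
          have h2 : d ∈ univ.filter fun z => key z ≤ key d := by simp
          have h3 := hs h2
          simp only [mem_filter, mem_univ, true_and] at h3
          exact absurd h3 (not_le.2 h)
      intro c d h
      simp only at h
      rcases lt_trichotomy (key c) (key d) with h2 | h2 | h2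
      · exact absurd h (aux c d h2).ne
      · exact hinj c d h2
      · exact absurd h (aux d c h2).ne'
    have h2 : ∑ c, ((univ.filter fun d => key d ≤ key c).card : ℝ) ^ k =
        ∑ j ∈ univ.image (fun c => (univ.filter fun d => key d ≤ key c).card), (j : ℝ) ^ k := by
      rw [sum_image fun c _ d _ h => h1 h]
    rw [h2]
    apply sum_le_sum_of_subset_of_nonneg
    · intro j hj
      rw [mem_image] at hj
      obtain ⟨c, _, rfl⟩ := hj
      rw [mem_range]
      have := card_le_univ (univ.filter fun d => key d ≤ key c)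
      omega
    · intro j _ _
      positivity
  · intro c
    simp

theorem sum_max (G : C → ℕ) (D : C → Finset C)
    (hD : ∀ c : Fin (m + 2) → C, ∃ i, (univ.sup fun j => G (c j)) ≤ G (c i) ∧
      ∀ j, c j ∈ D (c i)) (hD2 : ∀ c, c ∈ D c) :
    ∑ c : Fin (m + 2) → C, ((univ.sup fun j => G (c j) : ℕ) : ℝ) ≤
      (m + 2) * ∑ c, (G c : ℝ) * ((D c).card : ℝ) ^ (m + 1) := by
  have h1 : ∀ c : Fin (m + 2) → C, ((univ.sup fun j => G (c j) : ℕ) : ℝ) ≤
      ∑ i, (G (c i) : ℝ) * ind (∀ j, c j ∈ D (c i)) := by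
    intro c
    obtain ⟨i, hi, hi2⟩ := hD c
    have h2 : (G (c i) : ℝ) * ind (∀ j, c j ∈ D (c i)) ≤
        ∑ i, (G (c i) : ℝ) * ind (∀ j, c j ∈ D (c i)) :=
      single_le_sum (f := fun i => (G (c i) : ℝ) * ind (∀ j, c j ∈ D (c i)))
        (fun i _ => mul_nonneg (by positivity) (ind_nonneg _)) (mem_univ i)
    refine le_trans ?_ h2
    have h3 : ind (∀ j, c j ∈ D (c i)) = 1 := by simp [ind, hi2]
    rw [h3, mul_one]
    exact_mod_cast hi
  refine (sum_le_sum fun c _ => h1 c).trans ?_
  rw [sum_comm]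
  have h2 : ∀ i : Fin (m + 2), ∑ c : Fin (m + 2) → C, (G (c i) : ℝ) * ind (∀ j, c j ∈ D (c i)) ≤
      ∑ c, (G c : ℝ) * ((D c).card : ℝ) ^ (m + 1) := by
    intro i
    have h3 : ∀ c : Fin (m + 2) → C, (G (c i) : ℝ) * ind (∀ j, c j ∈ D (c i)) =
        ∑ d, (G d : ℝ) * ∏ j, (if j = i then ind (c j = d) else ind (c j ∈ D d)) := by
      intro c
      rw [sum_eq_single (c i)]
      · congr 1
        rw [← prod_ind]
        refine prod_congr rfl fun j _ => ?_
        split_ifs with h
        · rw [h]; simp [ind, hD2]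
        · rfl
      · intro d _ hd
        rw [prod_eq_zero (mem_univ i), mul_zero]
        rw [if_pos rfl]
        simp [ind, hd.symm]
      · intro h; exact absurd (mem_univ _) h
    rw [sum_congr rfl fun c _ => h3 c, sum_comm]
    refine sum_le_sum fun d _ => ?_
    rw [← mul_sum]
    apply mul_le_mul_of_nonneg_left _ (by positivity)
    have h4 := sum_pi (m := m) fun j (c : C) => if j = i then ind (c = d) else ind (c ∈ D d)
    have h5 : ∀ j : Fin (m + 2), (∑ c, if j = i then ind (c = d) else ind (c ∈ D d)) =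
        if j = i then (1 : ℝ) else ((D d).card : ℝ) := by
      intro j
      split_ifs with h
      · exact sum_ind_eq d
      · have := card_eq_ind fun c : C => c ∈ D d
        rw [← this]
        simp
    rw [prod_congr rfl fun j _ => h5 j, prod_one, one_mul] at h4
    exact h4.le
  refine (sum_le_sum fun i _ => h2 i).trans (le_of_eq ?_)
  simp

end iid

section

variable {U V E Q : Type} [Fintype U] [Fintype V] [Fintype E] (g : BGame U V E Q)
  {a b : ℕ} (hg : g.Regular a b) {m K : ℕ}

include hg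

/-- the maximum over the points of a vertex and over independent points -/
theorem max_le (G : U × Fin K → ℕ) (hV : 0 < Fintype.card V) (hU : 0 < Fintype.card U) :
    (∑ x : Vtx g (m + 2) K, ((univ.sup fun i => G (pt g x i) : ℕ) : ℝ)) *
      (Fintype.card (U × Fin K) : ℝ) ^ (m + 2) ≤
    Fintype.card (Vtx g (m + 2) K) *
      ∑ c : Fin (m + 2) → U × Fin K, ((univ.sup fun j => G (c j) : ℕ) : ℝ) := by
  set R0 : ℕ := univ.sup G with hR0
  have hR : ∀ c, G c ≤ R0 := fun c => le_sup (mem_univ c)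
  have h1 : ∀ x : Vtx g (m + 2) K, ((univ.sup fun i => G (pt g x i) : ℕ) : ℝ) =
      ∑ t ∈ range R0, (1 - ind (∀ i, pt g x i ∈ univ.filter fun c => G c ≤ t)) := by
    intro x
    rw [layer (Finset.sup_le fun i _ => hR (pt g x i))]
    refine sum_congr rfl fun t _ => ?_
    congr 2
    rw [Finset.sup_le_iff]
    simp
  have h2 : ∀ c : Fin (m + 2) → U × Fin K, ((univ.sup fun j => G (c j) : ℕ) : ℝ) =
      ∑ t ∈ range R0, (1 - ind (∀ i, c i ∈ univ.filter fun c => G c ≤ t)) := by
    intro c
    rw [layer (Finset.sup_le fun i _ => hR (c i))]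
    refine sum_congr rfl fun t _ => ?_
    congr 2
    rw [Finset.sup_le_iff]
    simp
  rw [sum_congr rfl fun x _ => h1 x, sum_congr rfl fun c _ => h2 c, sum_comm, sum_comm (s := univ)
    (t := range R0) (f := fun (c : Fin (m + 2) → U × Fin K) t =>
      (1 - ind (∀ i, c i ∈ univ.filter fun c => G c ≤ t))), sum_mul, mul_sum]
  refine sum_le_sum fun t _ => ?_
  have h3 := card_all g hg (m := m) (univ.filter fun c : U × Fin K => G c ≤ t) hV hU
  rw [sum_sub_distrib, sum_sub_distrib, sum_all]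
  simp only [sum_const, card_univ, nsmul_eq_mul, mul_one, Fintype.card_pi, prod_const,
    Fintype.card_fin]
  push_cast
  nlinarith

omit hg in
theorem final_step {T N Z n R : ℝ} (hn0 : 0 < n) (h0 : 0 < T)
    (s4 : T * n ^ (m + 2) ≤ N * ((m + 2) * Z))
    (s5 : Z ^ 2 ≤ T * (n ^ (2 * m + 3) / (2 * m + 3) + n ^ (2 * m + 2)))
    (s6 : N * (m + 2) = n * R) : T ≤ R ^ 2 * (n / (2 * m + 3) + 1) := by
  have s7 : (T * n ^ (m + 2)) ^ 2 ≤ (n * R) ^ 2 *
      (T * (n ^ (2 * m + 3) / (2 * m + 3) + n ^ (2 * m + 2))) := by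
    have h1 : 0 ≤ T * n ^ (m + 2) := by positivity
    calc (T * n ^ (m + 2)) ^ 2 ≤ (N * ((m + 2) * Z)) ^ 2 := pow_le_pow_left₀ h1 s4 2
      _ = (n * R) ^ 2 * Z ^ 2 := by rw [← s6]; ring
      _ ≤ _ := mul_le_mul_of_nonneg_left s5 (by positivity)
  have s8 : n ^ (2 * m + 3) = n ^ (2 * m + 2) * n := pow_succ n (2 * m + 2)
  have s9 : T * (T * n ^ (2 * m + 4)) ≤
      T * ((R ^ 2 * (n / (2 * m + 3) + 1)) * n ^ (2 * m + 4)) := by
    calc _ = (T * n ^ (m + 2)) ^ 2 := by ring
      _ ≤ _ := s7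
      _ = _ := by rw [s8]; ring
  have s10 := le_of_mul_le_mul_left s9 h0
  exact le_of_mul_le_mul_right s10 (by positivity)

/-- The main inequality. -/
theorem main_ineq (A : Vtx g (m + 2) K → Fin (m + 2) → Prop)
    (hA : ∀ x i j, A x i → A x j → i = j) (hV : 0 < Fintype.card V) (hU : 0 < Fintype.card U)
    (hK : 0 < K) :
    ∑ c : U × Fin K, ((univ.filter fun y : Vtx g (m + 2) K × Fin (m + 2) =>
      pt g y.1 y.2 = c ∧ A y.1 y.2).card : ℝ) ^ 2 ≤
    ((m + 2) * a * (b * K : ℝ) ^ (m + 1)) ^ 2 *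
      ((Fintype.card (U × Fin K) : ℝ) / (2 * m + 3) + 1) := by
  set G : U × Fin K → ℕ := fun c => (univ.filter fun y : Vtx g (m + 2) K × Fin (m + 2) =>
      pt g y.1 y.2 = c ∧ A y.1 y.2).card with hG
  have hG' : ∀ c, (G c : ℝ) = ∑ x, ∑ i, ind (pt g x i = c) * ind (A x i) := by
    intro c
    simp only [hG]
    rw [card_eq_ind, Fintype.sum_prod_type]
    exact sum_congr rfl fun x _ => sum_congr rfl fun i _ => ind_and _ _
  set n : ℝ := (Fintype.card (U × Fin K) : ℝ) with hn
  set N : ℝ := (Fintype.card (Vtx g (m + 2) K) : ℝ) with hN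
  set R : ℝ := (m + 2) * a * (b * K : ℝ) ^ (m + 1) with hR
  have hn0 : 0 < n := by
    rw [hn, Fintype.card_prod, Fintype.card_fin]
    exact_mod_cast Nat.mul_pos hU hK
  change ∑ c, (G c : ℝ) ^ 2 ≤ _
  -- step 1
  have s1 : ∑ c, (G c : ℝ) ^ 2 ≤
      ∑ x : Vtx g (m + 2) K, ((univ.sup fun i => G (pt g x i) : ℕ) : ℝ) := by
    have e1 : ∑ c, (G c : ℝ) ^ 2 = ∑ x, ∑ i, ind (A x i) * (G (pt g x i) : ℝ) := by
      have : ∀ c, (G c : ℝ) ^ 2 = ∑ x, ∑ i, ind (pt g x i = c) * (ind (A x i) * G c) := by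
        intro c
        rw [pow_two]
        nth_rewrite 1 [hG' c]
        rw [sum_mul]
        refine sum_congr rfl fun x _ => ?_
        rw [sum_mul]
        exact sum_congr rfl fun i _ => by ring
      rw [sum_congr rfl fun c _ => this c, sum_comm]
      refine sum_congr rfl fun x _ => ?_
      rw [sum_comm]
      refine sum_congr rfl fun i _ => ?_
      rw [sum_eq_single (pt g x i)]
      · simp [ind]
      · intro c _ hc; simp [ind, hc.symm]
      · intro h; exact absurd (mem_univ _) h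
    rw [e1]
    refine sum_le_sum fun x _ => ?_
    by_cases h : ∃ i, A x i
    · obtain ⟨i, hi⟩ := h
      rw [sum_eq_single i]
      · have h1 : ind (A x i) = 1 := by simp [ind, hi]
        rw [h1, one_mul]
        have : G (pt g x i) ≤ univ.sup fun i => G (pt g x i) :=
          le_sup (f := fun i => G (pt g x i)) (mem_univ i)
        exact_mod_cast this
      · intro j _ hj
        have : ¬ A x j := fun h => hj (hA x j i h hi)
        simp [ind, this]
      · intro h; exact absurd (mem_univ _) h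
    · push Not at h
      rw [sum_eq_zero]
      · positivity
      · intro i _; simp [ind, h i]
  obtain ⟨D, hD1, hD2, hD3⟩ := exists_rank (m := m) G
  have s2 := max_le g hg (m := m) G hV hU
  have s3 := sum_max (m := m) G D hD1 hD3
  set Z : ℝ := ∑ c, (G c : ℝ) * ((D c).card : ℝ) ^ (m + 1) with hZ
  set T : ℝ := ∑ c, (G c : ℝ) ^ 2 with hT
  have hT0 : 0 ≤ T := sum_nonneg fun c _ => by positivity
  have hN0 : 0 ≤ N := by positivity
  have s4 : T * n ^ (m + 2) ≤ N * ((m + 2) * Z) := by
    calc T * n ^ (m + 2) ≤ _ := mul_le_mul_of_nonneg_right s1 (by positivity)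
      _ ≤ _ := s2
      _ ≤ _ := mul_le_mul_of_nonneg_left s3 hN0
  have s5 : Z ^ 2 ≤ T * (n ^ (2 * m + 3) / (2 * m + 3) + n ^ (2 * m + 2)) := by
    have h1 := sum_mul_sq_le_sq_mul_sq univ (fun c => (G c : ℝ)) fun c =>
      ((D c).card : ℝ) ^ (m + 1)
    refine h1.trans (mul_le_mul_of_nonneg_left ?_ hT0)
    have h2 : ∀ c, (((D c).card : ℝ) ^ (m + 1)) ^ 2 = ((D c).card : ℝ) ^ (2 * m + 2) := by
      intro c; rw [← pow_mul]; congr 1; ring
    rw [sum_congr rfl fun c _ => h2 c]
    refine (hD2 (2 * m + 2)).trans ((sum_pow_le' _ _).trans (le_of_eq ?_))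
    push_cast
    rw [← hn]
    congr 2
    ring
  have s6 : N * (m + 2) = n * R := by
    have e0 : n = Fintype.card U * K := by
      rw [hn, Fintype.card_prod, Fintype.card_fin]; push_cast; ring
    rw [hN, card_vtx g hg, e0, hR]
    have h6 : (a : ℝ) * Fintype.card U = b * Fintype.card V := by
      rw [← card_edges_left g hg, ← card_edges_right g hg]
    have : (Fintype.card U : ℝ) * K * ((m + 2) * a * (b * K : ℝ) ^ (m + 1)) =
        (a * Fintype.card U) * K * ((m + 2) * (b * K : ℝ) ^ (m + 1)) := by ring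
    rw [this, h6]
    ring
  rcases hT0.eq_or_lt with h0 | h0
  · rw [← h0]
    positivity
  exact final_step hn0 h0 s4 s5 s6

end

end Pool.Agent.H698.SF
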