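import Pool.Agent.H698.SF.Quasi

/-! # The new game: edges, satisfied edges, completeness -/

set_option autoImplicit false
set_option linter.unusedSectionVars false

open scoped Classical
open Finset

namespace Pool.Agent.H698.SF

theorem ind_comm {α : Type} (x y : α) : ind (x = y) = ind (y = x) := by
  unfold ind
  by_cases h : x = y
  · simp [h]
  · simp [h, Ne.symm h]

section

variable {U V E Q : Type} [Fintype U] [Fintype V] [Fintype E] (g : BGame U V E Q)
  {a b : ℕ} (hg : g.Regular a b) {m K : ℕ}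

/-- there is no induced star with `r + 1` leaves -/
theorem starFree (r K : ℕ) : StarFree r (redGraph g r K) := by
  intro x S h1 h2
  have h3 : ∀ u ∈ S, ∃ i : Fin r, ∃ j, pt g x i = pt g u j := fun u hu => (h1 u hu).2
  choose f hf using h3
  have h4 : Function.Injective fun u : {u // u ∈ S} => f u.1 u.2 := by
    rintro ⟨u, hu⟩ ⟨w, hw⟩ h
    by_contra hne
    have hne' : u ≠ w := fun h' => hne (Subtype.ext h')
    obtain ⟨j, hj⟩ := hf u hu
    obtain ⟨j', hj'⟩ := hf w hw
    simp only at h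
    rw [h] at hj
    exact h2 u hu w hw ⟨hne', j, j', hj.symm.trans hj'⟩
  have := Fintype.card_le_of_injective _ h4
  simpa using this

/-- the constraint of an edge -/
theorem perm_of_adj {r K : ℕ} {x y : Vtx g r K} (h : (redGraph g r K).Adj x y) :
    ∃ i j, pt g x i = pt g y j ∧
      (red g r K).p x y = g.π (y.2 j).1.1 * (g.π (x.2 i).1.1)⁻¹ := by
  obtain ⟨-, i0, j0, h0⟩ := h
  have h1 : ∃ c, (∃ i, pt g x i = c) ∧ ∃ j, pt g y j = c := ⟨pt g x i0, ⟨i0, rfl⟩, j0, h0.symm⟩
  have h2 : pick (fun c => (∃ i, pt g x i = c) ∧ ∃ j, pt g y j = c) = some h1.choose := by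
    unfold pick
    rw [dif_pos h1]
  have h3 := h1.choose_spec
  set c := h1.choose
  have hx : perm g x c = g.π (x.2 h3.1.choose).1.1 := by
    unfold perm; rw [dif_pos h3.1]
  have hy : perm g y c = g.π (y.2 h3.2.choose).1.1 := by
    unfold perm; rw [dif_pos h3.2]
  refine ⟨h3.1.choose, h3.2.choose, h3.1.choose_spec.trans h3.2.choose_spec.symm, ?_⟩
  simp only [red, h2]
  rw [hx, hy]

/-- the label of the left vertex of a slot -/
noncomputable def lab {r K : ℕ} (l : Vtx g r K → Q) (x : Vtx g r K) (i : Fin r) : Q :=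
  (g.π (x.2 i).1.1)⁻¹ (l x)

theorem sat_iff {r K : ℕ} {x y : Vtx g r K} (h : (redGraph g r K).Adj x y)
    (l : Vtx g r K → Q) : ∃ i j, pt g x i = pt g y j ∧
      ((red g r K).p x y (l x) = l y ↔ lab g l x i = lab g l y j) := by
  obtain ⟨i, j, h1, h2⟩ := perm_of_adj g h
  refine ⟨i, j, h1, ?_⟩
  rw [h2]
  unfold lab
  rw [Equiv.Perm.mul_apply, Equiv.Perm.eq_inv_iff_eq]

theorem sat_le (l : Vtx g (m + 2) K → Q) :
    ((red g (m + 2) K).sat l : ℝ) ≤
      ∑ x : Vtx g (m + 2) K, ∑ i, ∑ y : Vtx g (m + 2) K, ∑ j,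
        ind (pt g x i = pt g y j ∧ lab g l x i = lab g l y j) := by
  have h1 : (univ.filter fun z : Vtx g (m + 2) K × Vtx g (m + 2) K =>
      (red g (m + 2) K).G.Adj z.1 z.2 ∧ (red g (m + 2) K).p z.1 z.2 (l z.1) = l z.2) ⊆
      (univ.filter fun w : (Vtx g (m + 2) K × Fin (m + 2)) × (Vtx g (m + 2) K × Fin (m + 2)) =>
        pt g w.1.1 w.1.2 = pt g w.2.1 w.2.2 ∧ lab g l w.1.1 w.1.2 = lab g l w.2.1 w.2.2).image
        fun w => (w.1.1, w.2.1) := by
    rintro ⟨x, y⟩ hz
    simp only [mem_filter, mem_univ, true_and] at hz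
    rw [mem_image]
    obtain ⟨i, j, h2, h3⟩ := sat_iff g hz.1 l
    refine ⟨((x, i), (y, j)), ?_, rfl⟩
    simp only [mem_filter, mem_univ, true_and]
    exact ⟨h2, h3.1 hz.2⟩
  have h2 := (card_le_card h1).trans card_image_le
  have h3 : ((red g (m + 2) K).sat l : ℝ) ≤ ((univ.filter
      fun w : (Vtx g (m + 2) K × Fin (m + 2)) × (Vtx g (m + 2) K × Fin (m + 2)) =>
        pt g w.1.1 w.1.2 = pt g w.2.1 w.2.2 ∧
          lab g l w.1.1 w.1.2 = lab g l w.2.1 w.2.2).card : ℝ) := by
    unfold Game.sat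
    exact_mod_cast h2
  refine h3.trans (le_of_eq ?_)
  rw [card_eq_ind, Fintype.sum_prod_type]
  simp only [Fintype.sum_prod_type]

include hg

/-- the number of slots of a point -/
theorem slots_of_point (c : U × Fin K) :
    ∑ x : Vtx g (m + 2) K, ∑ i, ind (pt g x i = c) =
      (m + 2) * a * (b * K : ℝ) ^ (m + 1) := by
  rw [sum_comm, sum_congr rfl fun i _ => card_slot g hg i c]
  simp only [sum_const, card_univ, Fintype.card_fin, nsmul_eq_mul]
  push_cast
  ring

/-- the number of all slots -/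
theorem slots_total : (Fintype.card (Vtx g (m + 2) K) : ℝ) * (m + 2) =
    Fintype.card (U × Fin K) * ((m + 2) * a * (b * K : ℝ) ^ (m + 1)) := by
  have e0 : (Fintype.card (U × Fin K) : ℝ) = Fintype.card U * K := by
    rw [Fintype.card_prod, Fintype.card_fin]; push_cast; ring
  rw [card_vtx g hg, e0]
  have h6 : (a : ℝ) * Fintype.card U = b * Fintype.card V := by
    rw [← card_edges_left g hg, ← card_edges_right g hg]
  have : (Fintype.card U : ℝ) * K * ((m + 2) * a * (b * K : ℝ) ^ (m + 1)) =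
      (a * Fintype.card U) * K * ((m + 2) * (b * K : ℝ) ^ (m + 1)) := by ring
  rw [this, h6]
  ring

/-- pairs of slots of the same point -/
theorem slot_pairs :
    ∑ x : Vtx g (m + 2) K, ∑ y : Vtx g (m + 2) K, ∑ i, ∑ j, ind (pt g x i = pt g y j) =
      Fintype.card (U × Fin K) * ((m + 2) * a * (b * K : ℝ) ^ (m + 1)) ^ 2 := by
  have h1 : ∀ x : Vtx g (m + 2) K, ∑ y : Vtx g (m + 2) K, ∑ i, ∑ j,
      ind (pt g x i = pt g y j) = (m + 2) * ((m + 2) * a * (b * K : ℝ) ^ (m + 1)) := by
    intro x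
    rw [sum_comm]
    have : ∀ i : Fin (m + 2), ∑ y : Vtx g (m + 2) K, ∑ j, ind (pt g x i = pt g y j) =
        (m + 2) * a * (b * K : ℝ) ^ (m + 1) := by
      intro i
      rw [← slots_of_point g hg (pt g x i)]
      exact sum_congr rfl fun y _ => sum_congr rfl fun j _ => ind_comm _ _
    rw [sum_congr rfl fun i _ => this i]
    simp only [sum_const, card_univ, Fintype.card_fin, nsmul_eq_mul]
    push_cast
    ring
  rw [sum_congr rfl fun x _ => h1 x]
  simp only [sum_const, card_univ, nsmul_eq_mul]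
  rw [← mul_assoc, slots_total g hg]
  ring

/-- two coincidences are rare -/
theorem two_coincidences (hK : 0 < K) {i j i' j' : Fin (m + 2)} (h : (i, j) ≠ (i', j')) :
    ∑ x : Vtx g (m + 2) K, ∑ y : Vtx g (m + 2) K,
      ind (pt g x i = pt g y j) * ind (pt g x i' = pt g y j') ≤
      Fintype.card (Vtx g (m + 2) K) * (a * b * (b * K : ℝ) ^ m) := by
  have hK' : (0 : ℝ) < K := by exact_mod_cast hK
  have hsame : ∀ {p q : Fin (m + 2)}, p ≠ q →
      (∑ x : Vtx g (m + 2) K, ind (pt g x p = pt g x q)) * (a * (b * K : ℝ) ^ (m + 1)) ≤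
        Fintype.card (Vtx g (m + 2) K) * (a * b * (b * K : ℝ) ^ m) := by
    intro p q hpq
    have h1 := card_same g hg (K := K) hpq
    calc _ = ((∑ x : Vtx g (m + 2) K, ind (pt g x p = pt g x q)) * K) *
          (a * b * (b * K : ℝ) ^ m) := by ring
      _ ≤ _ := mul_le_mul_of_nonneg_right h1 (by positivity)
  by_cases hi : i = i'
  · subst hi
    have hj : j ≠ j' := fun hj => h (by rw [hj])
    rw [sum_comm]
    have hy : ∀ y : Vtx g (m + 2) K, ∑ x : Vtx g (m + 2) K,
        ind (pt g x i = pt g y j) * ind (pt g x i = pt g y j') ≤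
        ind (pt g y j = pt g y j') * (a * (b * K : ℝ) ^ (m + 1)) := by
      intro y
      rw [← card_slot g hg i (pt g y j), mul_sum]
      refine sum_le_sum fun x _ => ?_
      by_cases h1 : pt g x i = pt g y j
      · by_cases h2 : pt g x i = pt g y j'
        · have h3 : pt g y j = pt g y j' := h1.symm.trans h2
          simp only [ind, h1, h3, if_true]
          norm_num
        · have h4 : 0 ≤ ind (pt g y j = pt g y j') * ind (pt g x i = pt g y j) :=
            mul_nonneg (ind_nonneg _) (ind_nonneg _)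
          have h5 : ind (pt g x i = pt g y j') = 0 := by simp only [ind, h2, if_false]
          rw [h5, mul_zero]
          exact h4
      · have h5 : ind (pt g x i = pt g y j) = 0 := by simp only [ind, h1, if_false]
        rw [h5]
        simp
    refine (sum_le_sum fun y _ => hy y).trans ?_
    rw [← sum_mul]
    exact hsame hj
  · by_cases hj : j = j'
    · subst hj
      have hx : ∀ x : Vtx g (m + 2) K, ∑ y : Vtx g (m + 2) K,
          ind (pt g x i = pt g y j) * ind (pt g x i' = pt g y j) ≤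
          ind (pt g x i = pt g x i') * (a * (b * K : ℝ) ^ (m + 1)) := by
        intro x
        rw [← card_slot g hg j (pt g x i), mul_sum]
        refine sum_le_sum fun y _ => ?_
        by_cases h1 : pt g x i = pt g y j
        · by_cases h2 : pt g x i' = pt g y j
          · have h3 : pt g x i = pt g x i' := h1.trans h2.symm
            have h4 : pt g y j = pt g x i := h1.symm
            have e1 : ind (pt g x i = pt g y j) = 1 := by simp only [ind, h1, if_true]
            have e2 : ind (pt g x i' = pt g y j) = 1 := by simp only [ind, h2, if_true]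
            have e3 : ind (pt g x i = pt g x i') = 1 := by simp only [ind, h3, if_true]
            have e4 : ind (pt g y j = pt g x i) = 1 := by simp only [ind, h4, if_true]
            rw [e1, e2, e3, e4]
          · have h4 : 0 ≤ ind (pt g x i = pt g x i') * ind (pt g y j = pt g x i) :=
              mul_nonneg (ind_nonneg _) (ind_nonneg _)
            have h5 : ind (pt g x i' = pt g y j) = 0 := by simp only [ind, h2, if_false]
            rw [h5, mul_zero]
            exact h4
        · have h4 : 0 ≤ ind (pt g x i = pt g x i') * ind (pt g y j = pt g x i) :=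
            mul_nonneg (ind_nonneg _) (ind_nonneg _)
          have h5 : ind (pt g x i = pt g y j) = 0 := by simp only [ind, h1, if_false]
          rw [h5, zero_mul]
          exact h4
      refine (sum_le_sum fun x _ => hx x).trans ?_
      rw [← sum_mul]
      exact hsame hi
    · refine (sum_le_sum fun x _ => (?_ : _ ≤ (a * b * (b * K : ℝ) ^ m))).trans (le_of_eq ?_)
      · refine le_trans (le_of_eq ?_) (card_two_slots g hg hj (pt g x i) (pt g x i'))
        exact sum_congr rfl fun y _ => by rw [ind_comm (pt g x i), ind_comm (pt g x i')]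
      · simp only [sum_const, card_univ, nsmul_eq_mul]

/-- The number of edges of the new graph. -/
theorem pairs_ge (ha : 0 < a) (hb : 0 < b) (hK : 0 < K) :
    Fintype.card (U × Fin K) * ((m + 2) * a * (b * K : ℝ) ^ (m + 1)) ^ 2 *
      (1 - ((m + 2) ^ 2 + 1) / K) ≤ ((red g (m + 2) K).pairs : ℝ) := by
  have hK' : (0 : ℝ) < K := by exact_mod_cast hK
  set N : ℝ := (Fintype.card (Vtx g (m + 2) K) : ℝ) with hN
  set n : ℝ := (Fintype.card (U × Fin K) : ℝ) with hn
  set n1 : ℝ := a * (b * K : ℝ) ^ (m + 1) with hn1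
  set I : Type := Fin (m + 2) × Fin (m + 2)
  set χ : Vtx g (m + 2) K → Vtx g (m + 2) K → I → ℝ :=
    fun x y p => ind (pt g x p.1 = pt g y p.2) with hχ
  have hχ2 : ∀ x y p, χ x y p * χ x y p = χ x y p := by
    intro x y p
    simp only [hχ, ind]
    split_ifs <;> simp
  have hχ0 : ∀ x y p, 0 ≤ χ x y p := fun x y p => ind_nonneg _
  -- pointwise
  have key : ∀ x y, ∑ p, χ x y p ≤ ind ((redGraph g (m + 2) K).Adj x y) +
      (m + 2) ^ 2 * ind (x = y) + ∑ p, ∑ q, ind (p ≠ q) * (χ x y p * χ x y q) := by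
    intro x y
    have e1 : ∑ p, ∑ q, ind (p ≠ q) * (χ x y p * χ x y q) =
        (∑ p, χ x y p) ^ 2 - ∑ p, χ x y p := by
      rw [pow_two, sum_mul_sum]
      rw [← sum_sub_distrib]
      refine sum_congr rfl fun p _ => ?_
      have : ∀ q, ind (p ≠ q) * (χ x y p * χ x y q) =
          χ x y p * χ x y q - ind (q = p) * χ x y p := by
        intro q
        by_cases h : q = p
        · subst h; simp [ind, hχ2]
        · simp [ind, h, Ne.symm h]
      rw [sum_congr rfl fun q _ => this q, sum_sub_distrib, ← sum_mul, sum_ind_eq, one_mul]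
    rw [e1]
    set k : ℝ := ∑ p, χ x y p with hk
    have hk0 : 0 ≤ k := sum_nonneg fun p _ => hχ0 x y p
    have hkle : k ≤ (m + 2) ^ 2 := by
      have : k ≤ ∑ _p : I, (1 : ℝ) := sum_le_sum fun p _ => by
        simp only [hχ, ind]; split_ifs <;> norm_num
      refine this.trans (le_of_eq ?_)
      simp [I, pow_two]
    have hk1 : k ≤ k ^ 2 ∨ False := by
      left
      -- `k` is a natural number
      obtain ⟨j, hj⟩ : ∃ j : ℕ, k = j := by
        refine ⟨(univ.filter fun p : I => pt g x p.1 = pt g y p.2).card, ?_⟩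
        rw [card_eq_ind]
      rw [hj]
      rcases Nat.eq_zero_or_pos j with h | h
      · simp [h]
      · have : (1 : ℝ) ≤ j := by exact_mod_cast h
        nlinarith
    have hk2 := hk1.resolve_right id
    by_cases hxy : x = y
    · have h1 : ind (x = y) = 1 := by simp [ind, hxy]
      rw [h1]
      have h2 := ind_nonneg ((redGraph g (m + 2) K).Adj x y)
      nlinarith
    · by_cases hadj : (redGraph g (m + 2) K).Adj x y
      · have h1 : ind ((redGraph g (m + 2) K).Adj x y) = 1 := by simp [ind, hadj]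
        rw [h1]
        have h2 := ind_nonneg (x = y)
        have h3 : (0 : ℝ) ≤ (m + 2) ^ 2 * ind (x = y) := by positivity
        nlinarith [sq_nonneg (k - 1)]
      · have h4 : k = 0 := by
          rw [hk]
          refine sum_eq_zero fun p _ => ?_
          simp only [hχ, ind]
          rw [if_neg]
          intro h5
          exact hadj ⟨hxy, p.1, p.2, h5⟩
        rw [h4]
        have h2 := ind_nonneg (x = y)
        have h3 := ind_nonneg ((redGraph g (m + 2) K).Adj x y)
        have h5 : (0 : ℝ) ≤ (m + 2) ^ 2 * ind (x = y) := by positivity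
        nlinarith
  -- summation
  have s0 : ∑ x : Vtx g (m + 2) K, ∑ y : Vtx g (m + 2) K, ∑ p, χ x y p = n * ((m + 2) * n1) ^ 2 := by
    have := slot_pairs g hg (m := m) (K := K)
    rw [hn1, hn]
    have e : ((m + 2) * (a * (b * K : ℝ) ^ (m + 1))) = (m + 2) * a * (b * K : ℝ) ^ (m + 1) := by
      ring
    rw [e, ← this]
    refine sum_congr rfl fun x _ => sum_congr rfl fun y _ => ?_
    rw [Fintype.sum_prod_type]
  have s1 : ∑ x : Vtx g (m + 2) K, ∑ y : Vtx g (m + 2) K,
      ind ((redGraph g (m + 2) K).Adj x y) = (red g (m + 2) K).pairs := by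
    unfold Game.pairs
    rw [card_eq_ind, Fintype.sum_prod_type]
    rfl
  have s2 : ∑ x : Vtx g (m + 2) K, ∑ y : Vtx g (m + 2) K, (m + 2) ^ 2 * ind (x = y) =
      (m + 2) ^ 2 * N := by
    have : ∀ x : Vtx g (m + 2) K, ∑ y : Vtx g (m + 2) K, (m + 2 : ℝ) ^ 2 * ind (x = y) =
        (m + 2) ^ 2 := by
      intro x
      rw [← mul_sum]
      have h1 : ∑ y : Vtx g (m + 2) K, ind (x = y) = 1 := by
        rw [← sum_ind_eq x]
        exact sum_congr rfl fun y _ => ind_comm _ _
      rw [h1, mul_one]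
    rw [sum_congr rfl fun x _ => this x]
    simp only [sum_const, card_univ, nsmul_eq_mul]
    rw [hN]; ring
  have s3 : ∑ x : Vtx g (m + 2) K, ∑ y : Vtx g (m + 2) K,
      ∑ p, ∑ q, ind (p ≠ q) * (χ x y p * χ x y q) ≤
      (m + 2) ^ 4 * (N * (a * b * (b * K : ℝ) ^ m)) := by
    have e1 : ∑ x : Vtx g (m + 2) K, ∑ y : Vtx g (m + 2) K,
        ∑ p, ∑ q, ind (p ≠ q) * (χ x y p * χ x y q) =
        ∑ p, ∑ q, ind (p ≠ q) * ∑ x : Vtx g (m + 2) K, ∑ y : Vtx g (m + 2) K,
          χ x y p * χ x y q := by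
      have f1 : ∀ x : Vtx g (m + 2) K, ∑ y : Vtx g (m + 2) K,
          ∑ p, ∑ q, ind (p ≠ q) * (χ x y p * χ x y q) =
          ∑ p, ∑ y : Vtx g (m + 2) K, ∑ q, ind (p ≠ q) * (χ x y p * χ x y q) :=
        fun x => sum_comm
      rw [sum_congr rfl fun x _ => f1 x, sum_comm]
      refine sum_congr rfl fun p _ => ?_
      have f2 : ∀ x : Vtx g (m + 2) K, ∑ y : Vtx g (m + 2) K, ∑ q,
          ind (p ≠ q) * (χ x y p * χ x y q) =
          ∑ q, ∑ y : Vtx g (m + 2) K, ind (p ≠ q) * (χ x y p * χ x y q) :=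
        fun x => sum_comm
      rw [sum_congr rfl fun x _ => f2 x, sum_comm]
      refine sum_congr rfl fun q _ => ?_
      rw [mul_sum]
      refine sum_congr rfl fun x _ => ?_
      rw [mul_sum]
    rw [e1]
    have hnn : 0 ≤ N * (a * b * (b * K : ℝ) ^ m) := by positivity
    have e2 : ∀ p q : I, ind (p ≠ q) * ∑ x : Vtx g (m + 2) K, ∑ y : Vtx g (m + 2) K,
        χ x y p * χ x y q ≤ N * (a * b * (b * K : ℝ) ^ m) := by
      intro p q
      by_cases h : p = q
      · simp only [ind, h, ne_eq, not_true, if_false, zero_mul]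
        exact hnn
      · have h1 : ind (p ≠ q) = 1 := by simp [ind, h]
        rw [h1, one_mul]
        exact two_coincidences g hg hK (i := p.1) (j := p.2) (i' := q.1) (j' := q.2) h
    refine (sum_le_sum fun p _ => sum_le_sum fun q _ => e2 p q).trans (le_of_eq ?_)
    simp only [sum_const, card_univ, nsmul_eq_mul]
    simp only [I, Fintype.card_prod, Fintype.card_fin]
    push_cast
    ring
  have s4 : n * ((m + 2) * n1) ^ 2 ≤ (red g (m + 2) K).pairs + (m + 2) ^ 2 * N +
      (m + 2) ^ 4 * (N * (a * b * (b * K : ℝ) ^ m)) := by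
    rw [← s0, ← s1, ← s2]
    refine le_trans ?_ (add_le_add_right s3 _)
    rw [← sum_add_distrib, ← sum_add_distrib]
    refine sum_le_sum fun x _ => ?_
    rw [← sum_add_distrib, ← sum_add_distrib]
    exact sum_le_sum fun y _ => key x y
  -- arithmetic
  have t1 : N * (m + 2) = n * ((m + 2) * n1) := by
    have := slots_total g hg (m := m) (K := K)
    rw [hN, hn, hn1, this]; ring
  have t2 : (a * b * (b * K : ℝ) ^ m) = n1 / K := by
    rw [hn1, pow_succ]; field_simp
  have hn10 : (K : ℝ) ≤ n1 := by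
    have ha' : (1 : ℝ) ≤ a := by exact_mod_cast ha
    have hb' : (1 : ℝ) ≤ b := by exact_mod_cast hb
    have hK1 : (1 : ℝ) ≤ K := by exact_mod_cast hK
    have h1 : (K : ℝ) ≤ b * K := by nlinarith
    have h2 : (b * K : ℝ) ≤ (b * K : ℝ) ^ (m + 1) := by
      apply le_self_pow₀ _ (by omega)
      nlinarith
    have h3 : (0 : ℝ) ≤ (b * K : ℝ) ^ (m + 1) := by positivity
    rw [hn1]
    nlinarith
  have hn0 : 0 ≤ n := by positivity
  have e : ((m + 2) * a * (b * K : ℝ) ^ (m + 1)) = (m + 2) * n1 := by rw [hn1]; ring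
  rw [e]
  rw [t2] at s4
  have t3 : (m + 2 : ℝ) ^ 2 * N = (m + 2) * (n * ((m + 2) * n1)) := by rw [← t1]; ring
  have t4 : (m + 2 : ℝ) ^ 4 * (N * (n1 / K)) =
      (m + 2) ^ 3 * (n * ((m + 2) * n1)) * (n1 / K) := by rw [← t1]; ring
  rw [t3, t4] at s4
  have t5 : (m + 2) * (n * ((m + 2) * n1)) ≤ n * ((m + 2) * n1) ^ 2 * (1 / K) := by
    rw [mul_one_div, le_div_iff₀ hK']
    have h1 : 0 ≤ n * ((m + 2 : ℝ) ^ 2 * n1) := by positivity
    calc (m + 2 : ℝ) * (n * ((m + 2) * n1)) * K = n * ((m + 2 : ℝ) ^ 2 * n1) * K := by ring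
      _ ≤ n * ((m + 2 : ℝ) ^ 2 * n1) * n1 := mul_le_mul_of_nonneg_left hn10 h1
      _ = _ := by ring
  have t6 : (m + 2 : ℝ) ^ 3 * (n * ((m + 2) * n1)) * (n1 / K) =
      n * ((m + 2) * n1) ^ 2 * ((m + 2) ^ 2 / K) := by ring
  rw [t6] at s4
  have t7 : n * ((m + 2) * n1) ^ 2 * (1 - ((m + 2 : ℝ) ^ 2 + 1) / K) =
      n * ((m + 2) * n1) ^ 2 - n * ((m + 2) * n1) ^ 2 * ((m + 2) ^ 2 / K) -
        n * ((m + 2) * n1) ^ 2 * (1 / K) := by ring
  rw [t7]
  linarith

/-- sums over the vertices of functions of one edge -/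
theorem sum_edge (i : Fin (m + 2)) (F : E → ℝ) :
    ∑ x : Vtx g (m + 2) K, F (x.2 i).1.1 = (∑ e, F e) * K * (b * K : ℝ) ^ (m + 1) := by
  have h := sum_one g hg (m := m) (K := K) i fun _ ω => F ω.1.1
  rw [h, sum_fiber g fun e _ => F e]
  congr 1
  simp only [sum_const, card_univ, Fintype.card_fin, nsmul_eq_mul]
  rw [sum_mul]
  exact sum_congr rfl fun e _ => mul_comm _ _

/-- Completeness. -/
theorem complete (l : U → Q) (l' : V → Q) (ε : ℝ)
    (h : (1 - ε) * Fintype.card E ≤ g.sat l l') :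
    ((red g (m + 2) K).pairs : ℝ) - (red g (m + 2) K).sat (fun x => l' x.1) ≤
      2 * ε * (Fintype.card (U × Fin K) * ((m + 2) * a * (b * K : ℝ) ^ (m + 1)) ^ 2) := by
  set R : ℝ := (m + 2) * a * (b * K : ℝ) ^ (m + 1) with hR
  set bad : E → Prop := fun e => ¬ g.π e (l (g.s e)) = l' (g.t e) with hbad
  have h1 : ((red g (m + 2) K).pairs : ℝ) - (red g (m + 2) K).sat (fun x => l' x.1) ≤
      ∑ x : Vtx g (m + 2) K, ∑ i, ∑ y : Vtx g (m + 2) K, ∑ j,
        ind (pt g x i = pt g y j) * (ind (bad (x.2 i).1.1) + ind (bad (y.2 j).1.1)) := by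
    have e1 : (red g (m + 2) K).pairs ≤ (red g (m + 2) K).sat (fun x => l' x.1) +
        (univ.filter fun w : (Vtx g (m + 2) K × Fin (m + 2)) × (Vtx g (m + 2) K × Fin (m + 2)) =>
          pt g w.1.1 w.1.2 = pt g w.2.1 w.2.2 ∧
            (bad (w.1.1.2 w.1.2).1.1 ∨ bad (w.2.1.2 w.2.2).1.1)).card := by
      have : (univ.filter fun z : Vtx g (m + 2) K × Vtx g (m + 2) K =>
          (red g (m + 2) K).G.Adj z.1 z.2) ⊆
          (univ.filter fun z : Vtx g (m + 2) K × Vtx g (m + 2) K =>
            (red g (m + 2) K).G.Adj z.1 z.2 ∧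
              (red g (m + 2) K).p z.1 z.2 (l' z.1.1) = l' z.2.1) ∪
          ((univ.filter fun w : (Vtx g (m + 2) K × Fin (m + 2)) ×
            (Vtx g (m + 2) K × Fin (m + 2)) =>
          pt g w.1.1 w.1.2 = pt g w.2.1 w.2.2 ∧
            (bad (w.1.1.2 w.1.2).1.1 ∨ bad (w.2.1.2 w.2.2).1.1)).image
              fun w => (w.1.1, w.2.1)) := by
        rintro ⟨x, y⟩ hz
        simp only [mem_filter, mem_univ, true_and] at hz
        rw [mem_union]
        obtain ⟨i, j, h2, h3⟩ := sat_iff g hz fun x => l' x.1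
        by_cases h4 : bad (x.2 i).1.1 ∨ bad (y.2 j).1.1
        · right
          rw [mem_image]
          refine ⟨((x, i), (y, j)), ?_, rfl⟩
          simp only [mem_filter, mem_univ, true_and]
          exact ⟨h2, h4⟩
        · left
          simp only [mem_filter, mem_univ, true_and]
          refine ⟨hz, h3.2 ?_⟩
          push Not at h4
          simp only [hbad, not_not] at h4
          unfold lab
          have hx : g.t (x.2 i).1.1 = x.1 := (x.2 i).1.2
          have hy : g.t (y.2 j).1.1 = y.1 := (y.2 j).1.2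
          have a1 : (g.π (x.2 i).1.1)⁻¹ (l' x.1) = l (g.s (x.2 i).1.1) := by
            rw [Equiv.Perm.inv_eq_iff_eq, h4.1, hx]
          have a2 : (g.π (y.2 j).1.1)⁻¹ (l' y.1) = l (g.s (y.2 j).1.1) := by
            rw [Equiv.Perm.inv_eq_iff_eq, h4.2, hy]
          rw [a1, a2]
          exact congrArg l (congrArg Prod.fst h2)
      have h5 := (card_le_card this).trans (card_union_le _ _)
      refine h5.trans (Nat.add_le_add_left card_image_le _)
    have e2 : ((red g (m + 2) K).pairs : ℝ) ≤ (red g (m + 2) K).sat (fun x => l' x.1) +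
        ((univ.filter fun w : (Vtx g (m + 2) K × Fin (m + 2)) × (Vtx g (m + 2) K × Fin (m + 2)) =>
          pt g w.1.1 w.1.2 = pt g w.2.1 w.2.2 ∧
            (bad (w.1.1.2 w.1.2).1.1 ∨ bad (w.2.1.2 w.2.2).1.1)).card : ℝ) := by
      exact_mod_cast e1
    have e3 : ((univ.filter fun w : (Vtx g (m + 2) K × Fin (m + 2)) ×
        (Vtx g (m + 2) K × Fin (m + 2)) =>
          pt g w.1.1 w.1.2 = pt g w.2.1 w.2.2 ∧
            (bad (w.1.1.2 w.1.2).1.1 ∨ bad (w.2.1.2 w.2.2).1.1)).card : ℝ) ≤
        ∑ x : Vtx g (m + 2) K, ∑ i, ∑ y : Vtx g (m + 2) K, ∑ j,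
        ind (pt g x i = pt g y j) * (ind (bad (x.2 i).1.1) + ind (bad (y.2 j).1.1)) := by
      rw [card_eq_ind, Fintype.sum_prod_type]
      simp only [Fintype.sum_prod_type]
      refine sum_le_sum fun x _ => sum_le_sum fun i _ => sum_le_sum fun y _ =>
        sum_le_sum fun j _ => ?_
      rw [ind_and]
      apply mul_le_mul_of_nonneg_left _ (ind_nonneg _)
      unfold ind
      by_cases h2 : bad (x.2 i).1.1 <;> by_cases h3 : bad (y.2 j).1.1 <;> simp [h2, h3]
    linarith
  -- each of the two parts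
  have part : ∀ (F : Vtx g (m + 2) K → Fin (m + 2) → ℝ),
      ∑ x : Vtx g (m + 2) K, ∑ i, ∑ y : Vtx g (m + 2) K, ∑ j,
        ind (pt g x i = pt g y j) * F x i = R * ∑ x : Vtx g (m + 2) K, ∑ i, F x i := by
    intro F
    rw [mul_sum]
    refine sum_congr rfl fun x _ => ?_
    rw [mul_sum]
    refine sum_congr rfl fun i _ => ?_
    rw [hR, ← slots_of_point g hg (pt g x i), sum_mul]
    refine sum_congr rfl fun y _ => ?_
    rw [sum_mul]
    refine sum_congr rfl fun j _ => ?_
    rw [ind_comm]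
  have h2 : ∑ x : Vtx g (m + 2) K, ∑ i, ∑ y : Vtx g (m + 2) K, ∑ j,
      ind (pt g x i = pt g y j) * (ind (bad (x.2 i).1.1) + ind (bad (y.2 j).1.1)) =
      2 * (R * ∑ x : Vtx g (m + 2) K, ∑ i, ind (bad (x.2 i).1.1)) := by
    have e1 : ∑ x : Vtx g (m + 2) K, ∑ i, ∑ y : Vtx g (m + 2) K, ∑ j,
        ind (pt g x i = pt g y j) * ind (bad (y.2 j).1.1) =
        ∑ x : Vtx g (m + 2) K, ∑ i, ∑ y : Vtx g (m + 2) K, ∑ j,
        ind (pt g x i = pt g y j) * ind (bad (x.2 i).1.1) := by
      have f1 : ∀ F : (Vtx g (m + 2) K × Fin (m + 2)) → (Vtx g (m + 2) K × Fin (m + 2)) → ℝ,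
          ∑ x : Vtx g (m + 2) K, ∑ i, ∑ y : Vtx g (m + 2) K, ∑ j, F (x, i) (y, j) =
          ∑ w : Vtx g (m + 2) K × Fin (m + 2), ∑ z : Vtx g (m + 2) K × Fin (m + 2), F w z := by
        intro F
        simp only [Fintype.sum_prod_type]
      rw [f1 fun w z => ind (pt g w.1 w.2 = pt g z.1 z.2) * ind (bad (z.1.2 z.2).1.1),
        f1 fun w z => ind (pt g w.1 w.2 = pt g z.1 z.2) * ind (bad (w.1.2 w.2).1.1), sum_comm]
      refine sum_congr rfl fun w _ => sum_congr rfl fun z _ => ?_
      rw [ind_comm]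
    simp only [mul_add, sum_add_distrib]
    rw [e1, part fun x i => ind (bad (x.2 i).1.1)]
    ring
  have h3 : ∑ x : Vtx g (m + 2) K, ∑ i, ind (bad (x.2 i).1.1) =
      (m + 2) * ((∑ e, ind (bad e)) * K * (b * K : ℝ) ^ (m + 1)) := by
    rw [sum_comm, sum_congr rfl fun i _ => sum_edge g hg i fun e => ind (bad e)]
    simp only [sum_const, card_univ, Fintype.card_fin, nsmul_eq_mul]
    push_cast
    ring
  have h4 : ∑ e, ind (bad e) ≤ ε * Fintype.card E := by
    have e1 : ∑ e, ind (bad e) = Fintype.card E - g.sat l l' := by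
      unfold BGame.sat
      rw [card_eq_ind, eq_sub_iff_add_eq, ← sum_add_distrib]
      rw [sum_congr rfl (g := fun _ => (1 : ℝ))]
      · simp
      · intro e _
        simp only [hbad, ind]
        by_cases h5 : g.π e (l (g.s e)) = l' (g.t e) <;> simp [h5]
    rw [e1]; linarith
  refine h1.trans ?_
  rw [h2, h3]
  have hN : (Fintype.card E : ℝ) * K * (b * K : ℝ) ^ (m + 1) * (m + 2) =
      Fintype.card (U × Fin K) * R := by
    rw [hR, ← slots_total g hg, card_vtx g hg, card_edges_right g hg]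
    ring
  have hpos : (0 : ℝ) ≤ 2 * (R * ((m + 2) * (K * (b * K : ℝ) ^ (m + 1)))) := by positivity
  calc 2 * (R * ((m + 2) * ((∑ e, ind (bad e)) * K * (b * K : ℝ) ^ (m + 1))))
      = 2 * (R * ((m + 2) * (K * (b * K : ℝ) ^ (m + 1)))) * ∑ e, ind (bad e) := by ring
    _ ≤ 2 * (R * ((m + 2) * (K * (b * K : ℝ) ^ (m + 1)))) * (ε * Fintype.card E) :=
        mul_le_mul_of_nonneg_left h4 hpos
    _ = 2 * ε * R * (Fintype.card E * K * (b * K : ℝ) ^ (m + 1) * (m + 2)) := by ring
    _ = _ := by rw [hN]; ring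

end

end Pool.Agent.H698.SF
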